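import Pool.Agent.L0h33.TT.NPm

/-!
# Finding the chain of keys
-/

set_option autoImplicit false

namespace Pool.Agent.L0h33.TT

open Pool.Agent.NPC Pool.Agent.H628R3.RO

attribute [local irreducible] unpair

open Classical in
/-- The answers to the queries for the next keys. -/
noncomputable def block (lev : ℕ → ℕ) (A : Oracle) (m : ℕ) (v : List Bool) : List Bool :=
  (ql m v).map (fun q => decide (q ∈ CC lev A))

/-- The next label. -/
noncomputable def nxt (lev : ℕ → ℕ) (A : Oracle) (m : ℕ) (v : List Bool) : List Bool :=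
  nx m v (block lev A m v) ((qk m v (block lev A m v)).map A)

/-- The labels. -/
noncomputable def vs (lev : ℕ → ℕ) (A : Oracle) (m s : ℕ) : List Bool := (nxt lev A m)^[s] []

variable {lev : ℕ → ℕ} {A : Oracle} {m : ℕ} {v : List Bool}

open Classical in
theorem block_eq : block lev A m v = (List.range (tg m)).flatMap (fun i =>
    (List.range m).map (fun j => decide (qry m v (tgs m i) j ∈ CC lev A))) := by
  unfold block ql
  rw [List.map_flatMap]
  simp only [List.map_map]
  rfl

theorem block_length : (block lev A m v).length = tg m * m := by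
  classical
  rw [block_eq, length_flat (m := m) _ _ (fun i _ => by simp), List.length_range]

open Classical in
theorem block_chunk {i : ℕ} (hi : i < tg m) : ((block lev A m v).drop (i * m)).take m =
    (List.range m).map (fun j => decide (qry m v (tgs m i) j ∈ CC lev A)) := by
  rw [block_eq]
  exact chunk_range _ (fun i _ => by simp) hi

theorem mem_CC_qry {i : ℕ} (hi : i < tg m) (j : ℕ) : qry m v (tgs m i) j ∈ CC lev A ↔
    ∃ z : List Bool, z.length = m ∧ z.getD j false = true ∧
      Hit m (2 * m + 1, tgs m i ++ (z ++ v)) A := by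
  obtain ⟨h1, h2, h3⟩ := idx_qry m v (tgs m i) j
  have h4 : (qry m v (tgs m i) j).head? = some false := rfl
  unfold CC
  rw [Set.mem_ofPred_eq, h1, h2, h3, h4, unpair_pairBits]
  simp [length_tgs hi]

theorem block_uq {i : ℕ} (hi : i < tg m) (h : A ∈ Uq m v i) :
    Hit m (2 * m + 1, cd m v (block lev A m v) i) A := by
  classical
  obtain ⟨z, hz, hh, hu⟩ := h
  have h1 : ((block lev A m v).drop (i * m)).take m = z := by
    rw [block_chunk hi]
    refine List.ext_getElem (by simp [hz]) fun j h1 h2 => ?_
    rw [List.getElem_map, List.getElem_range, Bool.eq_iff_iff, decide_eq_true_iff, mem_CC_qry hi]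
    constructor
    · rintro ⟨z', h3, h4, h5⟩
      rw [hu z' h3 h5, List.getD_eq_getElem _ _ h2] at h4
      exact h4
    · intro h3
      exact ⟨z, hz, by rw [List.getD_eq_getElem _ _ h2]; exact h3, hh⟩
  unfold cd
  rw [h1]
  exact hh

theorem nxt_spec (h : ∃ i < tg m, A ∈ Uq m v i) : ∃ i < tg m,
    nxt lev A m v = cd m v (block lev A m v) i ∧
      Hit m (2 * m + 1, cd m v (block lev A m v) i) A := by
  obtain ⟨i, hi, hu⟩ := h
  set b := block lev A m v with hb
  set l := (List.range (tg m)).filter
    (fun i => ((((qk m v b).map A).drop (i * m)).take m).all id) with hl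
  have hfl : ∀ i < tg m, ((((qk m v b).map A).drop (i * m)).take m).all id = true ↔
      Hit m (2 * m + 1, cd m v b i) A := by
    intro i hi
    have h1 : (((qk m v b).map A).drop (i * m)).take m = (asks m (2 * m + 1) (cd m v b i)).map A := by
      unfold qk
      rw [List.map_flatMap]
      exact chunk_range (fun i => (asks m (2 * m + 1) (cd m v b i)).map A)
        (fun i _ => by simp [asks]) hi
    rw [h1]
    exact asks_all A _ _ _
  have h1 : i ∈ l := by
    rw [hl, List.mem_filter, List.mem_range]
    exact ⟨hi, (hfl i hi).2 (block_uq hi hu)⟩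
  rcases hll : l with _ | ⟨i', l'⟩
  · rw [hll] at h1
    simp at h1
  · have h2 : i' ∈ l := by rw [hll]; simp
    rw [hl, List.mem_filter, List.mem_range] at h2
    refine ⟨i', h2.1, ?_, (hfl i' h2.1).1 h2.2⟩
    unfold nxt nx
    rw [← hb, ← hl, hll]
    rfl

theorem nxt_step {s : ℕ} (hA : A ∉ Bad m) (hs : s < m) (h1 : v ∈ Lb m s) (h2 : Val A m s v) :
    nxt lev A m v ∈ Lb m (s + 1) ∧ Val A m (s + 1) (nxt lev A m v) := by
  have h3 : ∃ i < tg m, A ∈ Uq m v i := by
    by_contra hcon
    push Not at hcon
    exact hA ⟨s, hs, v, h1, hcon⟩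
  obtain ⟨i, hi, h4, h5⟩ := nxt_spec (lev := lev) h3
  have h6 : (((block lev A m v).drop (i * m)).take m).length = m := by
    classical
    rw [block_chunk hi]
    simp
  rw [h4]
  constructor
  · rw [Lb]
    refine Finset.mem_image.2 ⟨(i, (((block lev A m v).drop (i * m)).take m, v)), ?_, rfl⟩
    rw [Finset.mem_product, Finset.mem_product, Finset.mem_range, List.mem_toFinset, mem_strsEq]
    exact ⟨hi, h6, h1⟩
  · refine Val.succ_iff.2 ⟨?_, h5, ?_⟩
    · unfold cd
      rw [List.length_append, List.length_append, length_tgs hi, h6, h2.1]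
      unfold ell
      ring
    · have h7 : (cd m v (block lev A m v) i).drop (ell m) = v := by
        unfold cd
        rw [← List.append_assoc]
        refine List.drop_left' ?_
        rw [List.length_append, length_tgs hi, h6]
        rfl
      rw [h7]
      exact h2

theorem vs_spec (hA : A ∉ Bad m) : ∀ s ≤ m, vs lev A m s ∈ Lb m s ∧ Val A m s (vs lev A m s)
  | 0, _ => ⟨by simp [vs, Lb], by simp [vs, Val]⟩
  | s + 1, hs => by
    obtain ⟨h1, h2⟩ := vs_spec hA s (by omega)
    have := nxt_step (lev := lev) hA (by omega) h1 h2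
    unfold vs at this ⊢
    rw [Function.iterate_succ_apply']
    exact this

theorem mem_CC_fq (y : List Bool) : fq m v y ∈ CC lev A ↔ Val A m (lev m) v ∧
    qb.eval y.length ≤ m ∧ y ∈ Pool.Agent.H673R2.OneTT.KA A := by
  obtain ⟨h1, h2, h3⟩ := idx_fq m v y
  have h4 : (fq m v y).head? = some true := rfl
  unfold CC
  rw [Set.mem_ofPred_eq, h1, h2, h3, h4]
  simp

end Pool.Agent.L0h33.TT
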