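import Pool.Agent.H628R3.RO.Defs

/-!
# Reductions with a bounded number of rounds of nonadaptive queries
-/

set_option autoImplicit false

namespace Pool.Agent.L0h33.TT

open Pool.Agent.NPC Pool.Agent.H628R3.RO

/-- The code of a list of strings: every bit `b` of a string is replaced by `1 b`, and the end of
every string is marked by `0`. -/
def encL (l : List (List Bool)) : List Bool :=
  l.flatMap (fun u => u.flatMap (fun b => [true, b]) ++ [false])

open Classical in
/-- The bits received in the first `i` rounds, in the order in which they are received. In every
round a list of queries is made, and all its queries are answered at the same time: the answer is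
`true` if the query is in `C`. The list is `F ⟨x, h⟩`, where `x` is the input and `h` consists of
the bits received in the rounds before. -/
noncomputable def hist (C : Set (List Bool)) (F : List Bool → List (List Bool))
    (x : List Bool) : ℕ → List Bool
  | 0 => []
  | i + 1 => hist C F x i ++ (F (pairBits x (hist C F x i))).map (fun q => decide (q ∈ C))

/-- `B` is reducible to `C` in polynomial time relative to the oracle `A` with `r n` rounds of
nonadaptive queries, where `n` is the length of the input `x`: the lists of queries are computed by
`F`, their total lengths are at most `b n`, and the result is computed by `G` from `x` and all the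
bits received. With one round these are the truth-table reductions. -/
def RoundRed (A : Oracle) (r : ℕ → ℕ) (B C : Set (List Bool)) : Prop :=
  ∃ (F : List Bool → List (List Bool)) (G : List Bool → List Bool) (b : Polynomial ℕ),
    IsFP A (fun u => encL (F u)) ∧ IsFP A G ∧
    (∀ x, ∀ i < r x.length, (encL (F (pairBits x (hist C F x i)))).length ≤ b.eval x.length) ∧
    ∀ x, x ∈ B ↔ G (pairBits x (hist C F x (r x.length))) = [true]

open Classical in
/-- The oracle which answers questions to `A` and to `C`. -/
noncomputable def join (A : Oracle) (C : Set (List Bool)) : Oracle
  | [] => false
  | false :: q => A q
  | true :: q => decide (q ∈ C)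

/-- `B` is reducible to `C` by a polynomial-time Turing reduction (Cook reduction) relative to the
oracle `A`. -/
def TuringRed (A : Oracle) (B C : Set (List Bool)) : Prop :=
  ∃ V : List Bool → List Bool, IsFP (join A C) V ∧ ∀ x, x ∈ B ↔ V x = [true]

end Pool.Agent.L0h33.TT
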