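import Pool.Agent.L0h33.TT.Set
import Pool.Agent.H628R3.RO.M4
import Pool.Agent.H628R3.RO.N1
import Pool.Agent.H628R3.RO.D1

/-!
# Unique keys
-/

set_option autoImplicit false

namespace Pool.Agent.L0h33.TT

open MeasureTheory
open Pool.Agent.NPC Pool.Agent.H628R3.RO
open Pool.Agent.H628R3.RO.M2 (prob_nonneg prob_mono mem_spots card_spots hit_iff
  measurableSet_hitSet loc_hit)

attribute [local irreducible] unpair

/-- The tag number `i`. -/
def tgs (m i : ℕ) : List Bool := List.replicate i true ++ List.replicate (tg m - i) false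

theorem length_tgs {m i : ℕ} (h : i < tg m) : (tgs m i).length = tg m := by
  unfold tgs
  simp
  omega

theorem tgs_inj {m i j : ℕ} (h : i < tg m) (h' : j < tg m) (he : tgs m i = tgs m j) : i = j := by
  have h1 := congrArg (fun l : List Bool => l.count true) he
  simpa [tgs, List.count_replicate] using h1

/-- The candidates for a key. -/
def Wk (m : ℕ) (v : List Bool) (i : ℕ) : Finset Cand :=
  (strsEq m).toFinset.image (fun z => (2 * m + 1, tgs m i ++ (z ++ v)))

theorem card_Wk (m : ℕ) (v : List Bool) (i : ℕ) : (Wk m v i).card = 2 ^ m := by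
  unfold Wk
  rw [Finset.card_image_of_injective, List.toFinset_card_of_nodup (nodup_strsEq m), length_strsEq]
  intro z z' h
  have := (Prod.mk.inj h).2
  exact List.append_cancel_right (List.append_cancel_left this)

/-- There is exactly one valid key with the tag number `i`. -/
def Uq (m : ℕ) (v : List Bool) (i : ℕ) : Set Oracle :=
  {A | ∃ z : List Bool, z.length = m ∧ Hit m (2 * m + 1, tgs m i ++ (z ++ v)) A ∧
    ∀ z' : List Bool, z'.length = m → Hit m (2 * m + 1, tgs m i ++ (z' ++ v)) A → z' = z}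

theorem loc_Uq (m : ℕ) (v : List Bool) (i : ℕ) :
    Loc (allSpots m (Wk m v i) : Set (List Bool)) (Uq m v i) := by
  have key : ∀ A A' : Oracle, (∀ y ∈ (allSpots m (Wk m v i) : Set (List Bool)), A y = A' y) →
      ∀ z : List Bool, z.length = m → (Hit m (2 * m + 1, tgs m i ++ (z ++ v)) A ↔
        Hit m (2 * m + 1, tgs m i ++ (z ++ v)) A') := by
    intro A A' h z hz
    refine loc_hit m _ A A' fun y hy => h y ?_
    refine H628R3.RO.M2.mem_allSpots.2 ⟨_, ?_, hy⟩
    exact Finset.mem_image_of_mem _ (List.mem_toFinset.2 (mem_strsEq.2 hz))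
  intro A A' h
  unfold Uq
  rw [Set.mem_ofPred_eq, Set.mem_ofPred_eq]
  refine exists_congr fun z => and_congr_right fun hz => and_congr (key A A' h z hz) ?_
  refine forall₂_congr fun z' hz' => ?_
  rw [key A A' h z' hz']

theorem prob_Uq {m : ℕ} (hm : 1 ≤ m) (v : List Bool) (i : ℕ) : 1 / 4 ≤ prob (Uq m v i) := by
  classical
  set q : ℝ := (1 / 2) ^ m with hq
  have hq0 : 0 < q := by positivity
  have hcov : (⋃ κ ∈ Wk m v i, HitSet m (Wk m v i) {κ}) ⊆ Uq m v i := by
    intro A hA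
    simp only [Set.mem_iUnion, exists_prop] at hA
    obtain ⟨κ, hκ, hA⟩ := hA
    obtain ⟨z, hz, rfl⟩ := Finset.mem_image.1 hκ
    refine ⟨z, mem_strsEq.1 (List.mem_toFinset.1 hz), (hA _ hκ).2 (Finset.mem_singleton_self _),
      fun z' hz' hh => ?_⟩
    have h1 := (hA (2 * m + 1, tgs m i ++ (z' ++ v)) (Finset.mem_image_of_mem _
      (List.mem_toFinset.2 (mem_strsEq.2 hz')))).1 hh
    have h2 := (Prod.mk.inj (Finset.mem_singleton.1 h1)).2
    exact List.append_cancel_right (List.append_cancel_left h2)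
  refine le_trans ?_ (prob_mono hcov)
  have h1 : prob (⋃ κ ∈ Wk m v i, HitSet m (Wk m v i) {κ}) =
      ∑ κ ∈ Wk m v i, prob (HitSet m (Wk m v i) {κ}) := by
    unfold prob
    rw [measureReal_biUnion_finset]
    · intro κ hκ κ' hκ' hne
      rw [Function.onFun, Set.disjoint_left]
      intro A hA hA'
      have h1 := (hA κ hκ).2 (Finset.mem_singleton_self _)
      have h2 := (hA' κ hκ).1 h1
      exact hne (Finset.mem_singleton.1 h2)
    · exact fun κ _ => measurableSet_hitSet _ _ _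
  rw [h1]
  have h2 : ∀ κ ∈ Wk m v i, q * (1 / 4) ≤ prob (HitSet m (Wk m v i) {κ}) := by
    intro κ hκ
    have h3 := prob_hitSet MeasurableSet.univ m (W := Wk m v i) (h := {κ})
      (Finset.singleton_subset_iff.2 hκ)
    rw [Finset.card_singleton, pow_one, pow_one, Set.preimage_univ, Set.univ_inter,
      Set.univ_inter, prob_noHit, card_Wk, ← hq] at h3
    have h4 := sat_ge hm 1
    rw [pow_one, one_mul] at h4
    have h5 := prob_nonneg (HitSet m (Wk m v i) {κ})
    nlinarith
  calc (1 / 4 : ℝ) = (2 ^ m : ℕ) * (q * (1 / 4)) := by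
        have := half_pow_mul m
        rw [← hq] at this
        linarith
    _ = ∑ _κ ∈ Wk m v i, q * (1 / 4) := by
        rw [Finset.sum_const, card_Wk, nsmul_eq_mul]
    _ ≤ _ := Finset.sum_le_sum h2

theorem prob_noUq {m : ℕ} (hm : 1 ≤ m) (v : List Bool) : ∀ n ≤ tg m,
    prob {A | ∀ i < n, A ∉ Uq m v i} ≤ (3 / 4) ^ n := by
  intro n
  induction n with
  | zero =>
    intro _
    rw [pow_zero, ← prob_univ']
    exact prob_mono (Set.subset_univ _)
  | succ n ih =>
    intro hn
    have h1 : {A | ∀ i < n + 1, A ∉ Uq m v i} = {A | ∀ i < n, A ∉ Uq m v i} ∩ (Uq m v n)ᶜ := by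
      ext A
      simp only [Set.mem_ofPred_eq, Set.mem_inter_iff, Set.mem_compl_iff]
      constructor
      · exact fun h => ⟨fun i hi => h i (by omega), h n (by omega)⟩
      · rintro ⟨h, h'⟩ i hi
        rcases Nat.lt_or_ge i n with h2 | h2
        · exact h i h2
        · obtain rfl : i = n := by omega
          exact h'
    have h2 : Loc (⋃ i ∈ Finset.range n, (allSpots m (Wk m v i) : Set (List Bool)))
        {A | ∀ i < n, A ∉ Uq m v i} := by
      intro A A' h
      rw [Set.mem_ofPred_eq, Set.mem_ofPred_eq]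
      refine forall₂_congr fun i hi => not_congr (loc_Uq m v i A A' fun y hy => h y ?_)
      exact Set.mem_biUnion (Finset.mem_coe.2 (Finset.mem_range.2 hi)) hy
    have h3 : prob (Uq m v n)ᶜ ≤ 3 / 4 := by
      have h4 : prob (Uq m v n)ᶜ = 1 - prob (Uq m v n) := by
        unfold prob
        rw [measureReal_compl (measurableSet_of_loc (Finset.finite_toSet _) (loc_Uq m v n))]
        simp
      have := prob_Uq hm v n
      linarith
    rw [h1, prob_inter_of_disjoint _ (Finset.finite_toSet (allSpots m (Wk m v n))) _ h2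
      (H628R3.RO.M2.Loc.compl (loc_Uq m v n)), pow_succ]
    · exact mul_le_mul (ih (by omega)) h3 (prob_nonneg _) (by positivity)
    · exact Set.Finite.biUnion (Finset.finite_toSet _) fun i _ => Finset.finite_toSet _
    · rw [Set.disjoint_left]
      intro y hy hy'
      rw [Set.mem_iUnion₂] at hy
      obtain ⟨i, hi, hy⟩ := hy
      rw [Finset.mem_range] at hi
      rw [Finset.mem_coe] at hy hy'
      obtain ⟨κ, hκ, hy⟩ := H628R3.RO.M2.mem_allSpots.1 hy
      obtain ⟨κ', hκ', hy'⟩ := H628R3.RO.M2.mem_allSpots.1 hy'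
      have h5 := H628R3.RO.M2.spots_disjoint hy hy'
      obtain ⟨z, _, rfl⟩ := Finset.mem_image.1 hκ
      obtain ⟨z', _, rfl⟩ := Finset.mem_image.1 hκ'
      have h6 := (Prod.mk.inj h5).2
      have h7 := (List.append_inj h6 (by rw [length_tgs (by omega), length_tgs (by omega)])).1
      have := tgs_inj (by omega) (by omega) h7
      omega

/-- The labels with tags from the list. -/
def Lb (m : ℕ) : ℕ → Finset (List Bool)
  | 0 => {[]}
  | s + 1 => (Finset.range (tg m) ×ˢ ((strsEq m).toFinset ×ˢ Lb m s)).image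
      (fun p => tgs m p.1 ++ (p.2.1 ++ p.2.2))

theorem card_Lb (m : ℕ) : ∀ s, (Lb m s).card ≤ (tg m * 2 ^ m) ^ s
  | 0 => by simp [Lb]
  | s + 1 => by
    refine Finset.card_image_le.trans ?_
    rw [Finset.card_product, Finset.card_product, Finset.card_range,
      List.toFinset_card_of_nodup (nodup_strsEq m), length_strsEq, pow_succ]
    have := card_Lb m s
    calc tg m * (2 ^ m * (Lb m s).card) ≤ tg m * (2 ^ m * (tg m * 2 ^ m) ^ s) := by gcongr
      _ = _ := by ring

/-- For some label no key is unique. -/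
def Bad (m : ℕ) : Set Oracle :=
  {A | ∃ s < m, ∃ v ∈ Lb m s, ∀ i < tg m, A ∉ Uq m v i}

theorem prob_Bad {m : ℕ} (hm : 1 ≤ m) : prob (Bad m) ≤ (1 / 2) ^ m := by
  classical
  have hcov : Bad m ⊆ ⋃ s ∈ Finset.range m, ⋃ v ∈ Lb m s, {A | ∀ i < tg m, A ∉ Uq m v i} := by
    rintro A ⟨s, hs, v, hv, hA⟩
    simp only [Set.mem_iUnion, exists_prop]
    exact ⟨s, Finset.mem_range.2 hs, v, hv, hA⟩
  have h1 : prob (Bad m) ≤ ∑ s ∈ Finset.range m, ∑ _v ∈ Lb m s, (3 / 4 : ℝ) ^ tg m := by
    refine (prob_mono hcov).trans ((measureReal_biUnion_finset_le _ _).trans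
      (Finset.sum_le_sum fun s _ => (measureReal_biUnion_finset_le _ _).trans
        (Finset.sum_le_sum fun v _ => ?_)))
    exact prob_noUq hm v _ le_rfl
  refine h1.trans ?_
  have h2 : (3 / 4 : ℝ) ^ tg m ≤ (1 / 2) ^ (3 * (m + 1) ^ 2) := by
    unfold tg
    rw [pow_mul, pow_mul]
    exact pow_le_pow_left₀ (by positivity) (by norm_num) _
  have h3 : tg m * 2 ^ m ≤ 2 ^ (3 * m + 3) := by
    have h4 : m + 1 ≤ 2 ^ m := Nat.lt_two_pow_self
    calc tg m * 2 ^ m = 8 * (m + 1) ^ 2 * 2 ^ m := rfl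
      _ ≤ 8 * (2 ^ m) ^ 2 * 2 ^ m := by gcongr
      _ = 2 ^ (3 * m + 3) := by rw [pow_add, ← pow_mul, mul_assoc, ← pow_add]; ring_nf
  have h4 : ∀ s ∈ Finset.range m, ((Lb m s).card : ℝ) ≤ 2 ^ ((3 * m + 3) * m) := by
    intro s hs
    rw [Finset.mem_range] at hs
    have h5 : (Lb m s).card ≤ 2 ^ ((3 * m + 3) * m) := by
      calc (Lb m s).card ≤ (tg m * 2 ^ m) ^ s := card_Lb m s
        _ ≤ (2 ^ (3 * m + 3)) ^ s := Nat.pow_le_pow_left h3 _
        _ = 2 ^ ((3 * m + 3) * s) := (pow_mul _ _ _).symm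
        _ ≤ 2 ^ ((3 * m + 3) * m) := Nat.pow_le_pow_right (by norm_num)
          (Nat.mul_le_mul_left _ hs.le)
    exact_mod_cast h5
  have h5 : (m : ℝ) ≤ 2 ^ m := by exact_mod_cast Nat.lt_two_pow_self.le
  calc ∑ s ∈ Finset.range m, ∑ _v ∈ Lb m s, (3 / 4 : ℝ) ^ tg m
      ≤ ∑ _s ∈ Finset.range m, (2 : ℝ) ^ ((3 * m + 3) * m) * (1 / 2) ^ (3 * (m + 1) ^ 2) := by
        refine Finset.sum_le_sum fun s hs => ?_
        rw [Finset.sum_const, nsmul_eq_mul]
        exact mul_le_mul (h4 s hs) h2 (by positivity) (by positivity)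
    _ = m * ((2 : ℝ) ^ ((3 * m + 3) * m) * (1 / 2) ^ (3 * (m + 1) ^ 2)) := by
        rw [Finset.sum_const, Finset.card_range, nsmul_eq_mul]
    _ ≤ 2 ^ m * ((2 : ℝ) ^ ((3 * m + 3) * m) * (1 / 2) ^ (3 * (m + 1) ^ 2)) := by gcongr
    _ = (2 : ℝ) ^ (m + (3 * m + 3) * m) * (1 / 2) ^ (3 * (m + 1) ^ 2) := by
        rw [pow_add]
        ring
    _ ≤ (1 / 2) ^ m := by
        have h6 : 3 * (m + 1) ^ 2 = (m + (3 * m + 3) * m) + (2 * m + 3) := by ring
        rw [h6, pow_add (1 / 2 : ℝ), ← mul_assoc, ← mul_pow]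
        have h7 : (2 * (1 / 2) : ℝ) ^ (m + (3 * m + 3) * m) = 1 := by norm_num
        rw [h7, one_mul]
        exact pow_le_pow_of_le_one (by norm_num) (by norm_num) (by omega)

/-- Almost surely the keys can be found for all but finitely many indices. -/
theorem ae_keys : ∀ᵐ A ∂randomOracle, ∃ m₀, ∀ m ≥ m₀, A ∉ Bad m := by
  have h1 : ∑' m, randomOracle (Bad (m + 1)) ≠ ⊤ := by
    have h2 : ∀ m, randomOracle (Bad (m + 1)) ≤ ENNReal.ofReal ((1 / 2) ^ m) := by
      intro m
      have h3 := prob_Bad (show 1 ≤ m + 1 by omega)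
      have h4 : prob (Bad (m + 1)) ≤ (1 / 2) ^ m := h3.trans
        (pow_le_pow_of_le_one (by norm_num) (by norm_num) (by omega))
      rw [← ENNReal.ofReal_toReal (measure_ne_top randomOracle (Bad (m + 1)))]
      exact ENNReal.ofReal_le_ofReal h4
    refine ne_top_of_le_ne_top ?_ (ENNReal.tsum_le_tsum h2)
    rw [← ENNReal.ofReal_tsum_of_nonneg (fun n => by positivity)
      (summable_geometric_of_lt_one (by norm_num) (by norm_num))]
    exact ENNReal.ofReal_ne_top
  filter_upwards [ae_eventually_notMem h1] with A hA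
  obtain ⟨n, hn⟩ := Filter.eventually_atTop.1 hA
  refine ⟨n + 1, fun m hm => ?_⟩
  have := hn (m - 1) (by omega)
  rwa [Nat.sub_add_cancel (by omega)] at this

end Pool.Agent.L0h33.TT
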