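import Pool.Agent.L0h33.TT.Run
import Pool.Agent.H628R3.RO.N1

/-!
# A reduction with few rounds does not find the chain of keys
-/

set_option autoImplicit false

namespace Pool.Agent.L0h33.TT

open MeasureTheory
open Pool.Agent.NPC Pool.Agent.H628R3.RO
open Pool.Agent.H628R3.RO.M2 (prob_nonneg prob_mono sum_prob_le measurable_plant mem_spots
  card_spots hit_iff loc_plant)

attribute [local irreducible] unpair

variable {lev : ℕ → ℕ} {M : Alg × Polynomial ℕ} {x : List Bool}

theorem hit_plant_ne {A : Oracle} {m m₁ : ℕ} {κ κ₁ : Cand} (h : κ₁ ≠ κ) :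
    Hit m₁ κ₁ (plant (spots m κ) A) ↔ Hit m₁ κ₁ A := by
  unfold Hit
  refine forall₂_congr fun i _ => ?_
  unfold plant
  rw [if_neg]
  intro h'
  obtain ⟨j, _, h2⟩ := mem_spots.1 h'
  obtain ⟨h3, _, h4⟩ := pos_inj h2
  exact h (Prod.ext h3 h4).symm

theorem plant_mono (J : Finset (List Bool)) (A : Oracle) (y : List Bool) (h : A y = true) :
    plant J A y = true := by
  unfold plant
  split_ifs <;> simp [h]

/-- In round `r` a query is made whose label ends with a chain of `r + 1` keys. -/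
def Fnd (lev : ℕ → ℕ) (M : Alg × Polynomial ℕ) (x : List Bool) (n r : ℕ) : Set Oracle :=
  {A | ∃ q ∈ ls lev M x A r, n ≤ idx q ∧ ∃ u, u <:+ lab q ∧ Val A (idx q) (r + 1) u}

theorem no_label {A : Oracle} {n m r r' : ℕ} (hr : r' < r) {v : List Bool} (hv : Val A m r v)
    (hF : A ∉ Fnd lev M x n r') {q : List Bool} (hq : q ∈ ls lev M x A r') (hn : n ≤ m)
    (hm : idx q = m) : ¬ v <:+ lab q := by
  intro hs
  refine hF ⟨q, hq, by omega, v.drop ((r - (r' + 1)) * ell m), (List.drop_suffix _ _).trans hs, ?_⟩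
  rw [hm]
  exact hv.drop (by omega)

theorem no_full {A : Oracle} {n r' : ℕ} (hF : A ∉ Fnd lev M x n r') {q : List Bool}
    (hq : q ∈ ls lev M x A r') (hn : n ≤ idx q) (hl : r' + 1 ≤ lev (idx q)) :
    ¬ Val A (idx q) (lev (idx q)) (lab q) := by
  intro hv
  exact hF ⟨q, hq, hn, _, List.drop_suffix _ _, hv.drop hl⟩

/-- The event that the first valid chain of `r + 1` keys which is found, in round `r`, is `u`. -/
def Vst (lev : ℕ → ℕ) (M : Alg × Polynomial ℕ) (x : List Bool) (n r : ℕ) (κ : Cand) : Set Oracle :=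
  {A | Val A κ.1 r (κ.2.drop (ell κ.1)) ∧ κ.2.length = (r + 1) * ell κ.1 ∧
    (∀ r' < r, A ∉ Fnd lev M x n r') ∧ ∃ q ∈ ls lev M x A r, idx q = κ.1 ∧ κ.2 <:+ lab q}

open Classical in
/-- The candidate to which a string belongs. -/
noncomputable def cof (q : List Bool) : Cand :=
  if h : ∃ κ : Cand, ∃ i, q = pos (2 * κ.1 + 1) i κ.2 then h.choose else (0, [])

theorem cof_eq {q : List Bool} {m m' : ℕ} {u : List Bool} (h : q ∈ spots m' (2 * m + 1, u)) :
    cof q = (m, u) := by
  obtain ⟨i, _, rfl⟩ := mem_spots.1 h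
  have h1 : ∃ κ' : Cand, ∃ i', pos (2 * m + 1) i u = pos (2 * κ'.1 + 1) i' κ'.2 :=
    ⟨(m, u), i, rfl⟩
  unfold cof
  rw [dif_pos h1]
  obtain ⟨i', h2⟩ := h1.choose_spec
  obtain ⟨h3, _, h4⟩ := pos_inj h2
  exact (Prod.ext (by omega) h4).symm

/-- Planting a key changes little. -/
theorem few_keys {n k P r : ℕ} (hr : r < k) (hlev : ∀ m ≥ n, k ≤ lev m) {A : Oracle}
    (hP : Bnd lev M k P x A) : ∃ T : Finset Cand, T.card ≤ (k + 1) * P + P * (P + 1) ∧
      ∀ κ : Cand, n ≤ κ.1 → plant (spots κ.1 (2 * κ.1 + 1, κ.2)) A ∈ Vst lev M x n r κ → κ ∈ T := by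
  classical
  have hD : ∀ i : ℕ, ∃ D : Finset (List Bool), D.card ≤ P ∧ (i ≤ k → ∀ A' : Oracle,
      (∀ q ∈ D, A' q = A q) → outA M.1 A' (pairBits x (hs lev M x A i)) =
        outA M.1 A (pairBits x (hs lev M x A i))) := by
    intro i
    by_cases hi : i ≤ k
    · obtain ⟨_, _, _, D, h1, _, h2⟩ := hP i hi
      exact ⟨D, h1, fun _ => h2⟩
    · exact ⟨∅, by simp, fun h => absurd h hi⟩
  choose D hD1 hD2 using hD
  refine ⟨((Finset.range (r + 1)).biUnion D).image cof ∪
    (ls lev M x A r).toFinset.biUnion (fun q => (lab q).tails.toFinset.image (fun u => (idx q, u))),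
    ?_, fun κ hn hκ => ?_⟩
  · refine (Finset.card_union_le _ _).trans (Nat.add_le_add ?_ ?_)
    · refine Finset.card_image_le.trans (Finset.card_biUnion_le.trans ?_)
      calc ∑ i ∈ Finset.range (r + 1), (D i).card ≤ ∑ _i ∈ Finset.range (r + 1), P :=
            Finset.sum_le_sum fun i _ => hD1 i
        _ = (r + 1) * P := by simp
        _ ≤ (k + 1) * P := Nat.mul_le_mul_right _ (by omega)
    · obtain ⟨_, h2, h3, _⟩ := hP r hr.le
      refine Finset.card_biUnion_le.trans ?_
      calc ∑ q ∈ (ls lev M x A r).toFinset,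
            ((lab q).tails.toFinset.image (fun u => (idx q, u))).card
          ≤ ∑ _q ∈ (ls lev M x A r).toFinset, (P + 1) := by
            refine Finset.sum_le_sum fun q hq => ?_
            refine Finset.card_image_le.trans ((List.toFinset_card_le _).trans ?_)
            rw [List.length_tails]
            have h4 := h3 q (List.mem_toFinset.1 hq)
            have h5 := query_len q
            omega
        _ = (ls lev M x A r).toFinset.card * (P + 1) := by simp
        _ ≤ P * (P + 1) := Nat.mul_le_mul_right _ ((List.toFinset_card_le _).trans h2)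
  · obtain ⟨m, u⟩ := κ
    simp only at hn
    set A' := plant (spots m (2 * m + 1, u)) A with hA'
    obtain ⟨hv, hlen, hF, q, hq, hqm, hqu⟩ := hκ
    simp only at hv hlen hqm hqu
    rw [Finset.mem_union]
    by_cases hin : ∃ i ≤ r, ∃ y ∈ D i, y ∈ spots m (2 * m + 1, u)
    · left
      obtain ⟨i, hi, y, hy, hy'⟩ := hin
      exact Finset.mem_image.2 ⟨y, Finset.mem_biUnion.2 ⟨i, Finset.mem_range.2 (by omega), hy⟩,
        cof_eq hy'⟩
    · right
      push Not at hin
      have hst := stable (lev := lev) (M := M) (x := x) (A := A) (A' := A') (r := r)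
        (fun i hi => hD2 i (by omega) A' fun y hy => by
          rw [hA']
          unfold plant
          rw [if_neg (hin i hi y hy)])
        (fun i hi _ q' hq' => by
          refine CC_congr (plant_mono _ _) (fun t z ht hz => ?_) ?_
          · by_cases he : ((2 * idx q' + 1, t ++ (z ++ lab q')) : Cand) = (2 * m + 1, u)
            · exfalso
              obtain ⟨h1, h2⟩ := Prod.mk.inj he
              have h3 : idx q' = m := by omega
              refine no_label hi hv (hF i hi) hq' hn h3 ?_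
              have h4 : u.drop (ell m) = lab q' := by
                rw [← h2, ← List.append_assoc]
                refine List.drop_left' ?_
                rw [List.length_append, ht, hz, h3]
                rfl
              rw [h4]
            · exact hit_plant_ne he
          · rcases Nat.lt_or_ge (idx q') n with h | h
            · right
              have hne : idx q' ≠ m := by omega
              refine ⟨?_, fun y hy => ?_⟩
              · unfold Val
                refine and_congr_right fun _ => forall₂_congr fun j _ => ?_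
                refine hit_plant_ne fun he => hne ?_
                have := (Prod.mk.inj he).1
                omega
              · rw [hA']
                unfold plant
                rw [if_neg]
                intro hy'
                obtain ⟨j, _, rfl⟩ := mem_spots.1 hy'
                rw [length_pos] at hy
                omega
            · left
              exact no_full (hF i hi) hq' h (by have := hlev _ h; omega))
      have h1 := (hst r le_rfl).2
      rw [h1] at hq
      refine Finset.mem_biUnion.2 ⟨q, List.mem_toFinset.2 hq, Finset.mem_image.2 ⟨u, ?_, ?_⟩⟩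
      · rw [List.mem_toFinset, List.mem_tails]
        exact hqu
      · rw [hqm]

theorem loc_Fnd {n k P r : ℕ} (hr : r ≤ k) (hP : ∀ A, Bnd lev M k P x A) :
    Loc {y | y.length ≤ 4 * P + 3 + ell P} (Fnd lev M x n r) := by
  intro A A' h
  have h1 := (run_loc hP h r hr).2
  unfold Fnd
  rw [Set.mem_ofPred_eq, Set.mem_ofPred_eq, h1]
  refine exists_congr fun q => and_congr_right fun hq => and_congr_right fun _ =>
    exists_congr fun u => and_congr_right fun hu => ?_
  obtain ⟨_, _, h2, _⟩ := hP A r hr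
  have h3 := h2 q hq
  have h4 := query_len q
  have h5 := hu.length_le
  refine val_congr ?_ h
  omega

theorem loc_Vst {n k P r : ℕ} (hr : r ≤ k) (hP : ∀ A, Bnd lev M k P x A) (κ : Cand) :
    Loc {y | y.length ≤ 4 * P + 3 + ell P + (3 * κ.1 + 3 + κ.2.length)} (Vst lev M x n r κ) := by
  intro A A' h
  have h0 : ∀ y : List Bool, y.length ≤ 4 * P + 3 + ell P → A y = A' y :=
    fun y hy => h y (by rw [Set.mem_ofPred_eq]; omega)
  have h1 := (run_loc hP h0 r hr).2
  unfold Vst
  rw [Set.mem_ofPred_eq, Set.mem_ofPred_eq, h1]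
  refine and_congr (val_congr (B := 4 * P + 3 + ell P + (3 * κ.1 + 3 + κ.2.length)) ?_ h)
    (and_congr_right fun _ => and_congr ?_ Iff.rfl)
  · rw [List.length_drop]
    omega
  · refine forall₂_congr fun r' hr' => not_congr ?_
    exact loc_Fnd (by omega) hP A A' h0

open Classical in
theorem prob_Fnd {n k P r : ℕ} (hr : r < k) (hlev : ∀ m ≥ n, k ≤ lev m)
    (hP : ∀ A, Bnd lev M k P x A) :
    prob (Fnd lev M x n r ∩ {A | ∀ r' < r, A ∉ Fnd lev M x n r'}) ≤
      (1 / 2) ^ n * ((k + 1) * P + P * (P + 1) : ℕ) := by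
  set W : Finset Cand := Finset.Icc n P ×ˢ (strs P).toFinset with hW
  have hcov : Fnd lev M x n r ∩ {A | ∀ r' < r, A ∉ Fnd lev M x n r'} ⊆
      ⋃ κ ∈ W, ({A | ∀ y ∈ spots κ.1 (2 * κ.1 + 1, κ.2), A y = true} ∩ Vst lev M x n r κ) := by
    rintro A ⟨⟨q, hq, hn, u, hu, hv⟩, hA⟩
    obtain ⟨_, _, h2, _⟩ := hP A r hr.le
    have h3 := h2 q hq
    have h4 := query_len q
    have h5 := hu.length_le
    obtain ⟨h6, h7, h8⟩ := Val.succ_iff.1 hv
    simp only [Set.mem_iUnion, exists_prop]
    refine ⟨(idx q, u), ?_, ?_, h8, h6, hA, q, hq, rfl, hu⟩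
    · rw [hW, Finset.mem_product, Finset.mem_Icc, List.mem_toFinset, mem_strs]
      refine ⟨⟨hn, ?_⟩, ?_⟩ <;> simp only <;> omega
    · exact hit_iff.1 h7
  have hVm : ∀ κ, MeasurableSet (Vst lev M x n r κ) := fun κ =>
    measurableSet_of_loc (finite_length_le _) (loc_Vst hr.le hP κ)
  have hone : ∀ κ ∈ W, prob ({A | ∀ y ∈ spots κ.1 (2 * κ.1 + 1, κ.2), A y = true} ∩
      Vst lev M x n r κ) ≤ (1 / 2) ^ n * prob (Set.univ ∩
        plant (spots κ.1 (2 * κ.1 + 1, κ.2)) ⁻¹' Vst lev M x n r κ) := by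
    intro κ hκ
    rw [prob_plant (hVm κ), card_spots, Set.univ_inter]
    rw [hW, Finset.mem_product, Finset.mem_Icc] at hκ
    refine mul_le_mul_of_nonneg_right ?_ (prob_nonneg _)
    exact pow_le_pow_of_le_one (by norm_num) (by norm_num) hκ.1.1
  calc prob (Fnd lev M x n r ∩ {A | ∀ r' < r, A ∉ Fnd lev M x n r'})
      ≤ prob (⋃ κ ∈ W, ({A | ∀ y ∈ spots κ.1 (2 * κ.1 + 1, κ.2), A y = true} ∩
          Vst lev M x n r κ)) := prob_mono hcov
    _ ≤ ∑ κ ∈ W, prob ({A | ∀ y ∈ spots κ.1 (2 * κ.1 + 1, κ.2), A y = true} ∩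
          Vst lev M x n r κ) := measureReal_biUnion_finset_le _ _
    _ ≤ ∑ κ ∈ W, (1 / 2) ^ n * prob (Set.univ ∩
          plant (spots κ.1 (2 * κ.1 + 1, κ.2)) ⁻¹' Vst lev M x n r κ) := Finset.sum_le_sum hone
    _ = (1 / 2) ^ n * ∑ κ ∈ W, prob (Set.univ ∩
          plant (spots κ.1 (2 * κ.1 + 1, κ.2)) ⁻¹' Vst lev M x n r κ) := by
        rw [Finset.mul_sum]
    _ ≤ (1 / 2) ^ n * (((k + 1) * P + P * (P + 1) : ℕ) * prob Set.univ) := by
        refine mul_le_mul_of_nonneg_left ?_ (by positivity)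
        refine sum_prob_le MeasurableSet.univ W
          (fun κ => plant (spots κ.1 (2 * κ.1 + 1, κ.2)) ⁻¹' Vst lev M x n r κ)
          (fun κ => (measurable_plant _) (hVm κ)) _ fun A _ => ?_
        obtain ⟨T, hT, hT'⟩ := few_keys (r := r) hr hlev (hP A)
        refine ⟨T, hT, fun κ hκ hA => hT' κ ?_ hA⟩
        rw [hW, Finset.mem_product, Finset.mem_Icc] at hκ
        exact hκ.1.1
    _ = _ := by rw [prob_univ', mul_one]

/-- The event that no chain of keys is found too early. -/
def Gd (lev : ℕ → ℕ) (M : Alg × Polynomial ℕ) (x : List Bool) (n k : ℕ) : Set Oracle :=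
  {A | ∀ r < k, A ∉ Fnd lev M x n r}

theorem loc_Gd {n k P : ℕ} (hP : ∀ A, Bnd lev M k P x A) :
    Loc {y | y.length ≤ 4 * P + 3 + ell P} (Gd lev M x n k) := by
  intro A A' h
  exact forall₂_congr fun r hr => not_congr (loc_Fnd hr.le hP A A' h)

theorem prob_Gd {n k P : ℕ} (hlev : ∀ m ≥ n, k ≤ lev m) (hP : ∀ A, Bnd lev M k P x A) :
    prob (Gd lev M x n k)ᶜ ≤ k * ((1 / 2) ^ n * ((k + 1) * P + P * (P + 1) : ℕ)) := by
  classical
  have hcov : (Gd lev M x n k)ᶜ ⊆ ⋃ r ∈ Finset.range k,
      (Fnd lev M x n r ∩ {A | ∀ r' < r, A ∉ Fnd lev M x n r'}) := by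
    intro A hA
    have h1 : ∃ r, r < k ∧ A ∈ Fnd lev M x n r := by
      by_contra hcon
      push Not at hcon
      exact hA hcon
    obtain ⟨h2, h3⟩ := Nat.find_spec h1
    simp only [Set.mem_iUnion, exists_prop]
    refine ⟨Nat.find h1, Finset.mem_range.2 h2, h3, fun r' hr' h4 => ?_⟩
    exact Nat.find_min h1 hr' ⟨by omega, h4⟩
  calc prob (Gd lev M x n k)ᶜ ≤ prob (⋃ r ∈ Finset.range k,
        (Fnd lev M x n r ∩ {A | ∀ r' < r, A ∉ Fnd lev M x n r'})) := prob_mono hcov
    _ ≤ ∑ r ∈ Finset.range k, prob (Fnd lev M x n r ∩ {A | ∀ r' < r, A ∉ Fnd lev M x n r'}) :=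
        measureReal_biUnion_finset_le _ _
    _ ≤ ∑ _r ∈ Finset.range k, (1 / 2 : ℝ) ^ n * ((k + 1) * P + P * (P + 1) : ℕ) :=
        Finset.sum_le_sum fun r hr => prob_Fnd (Finset.mem_range.1 hr) hlev hP
    _ = _ := by rw [Finset.sum_const, Finset.card_range, nsmul_eq_mul]

end Pool.Agent.L0h33.TT
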