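import Pool.Agent.L0h33.TT.Up
import Pool.Agent.H660R2.NX.Run

/-!
# Turing completeness
-/

set_option autoImplicit false

namespace Pool.Agent.L0h33.TT

open Pool.Agent.NPC Pool.Agent.H628R3.RO
open Pool.Agent.H673R2.OneTT (KA hard_KA)

attribute [local irreducible] unpair

/-! ### The two libraries -/

theorem run_eq (M : Alg) (A : Oracle) (x : List Bool) : ∀ (n : ℕ) (a : List Bool),
    Pool.Agent.H620R2.Gauge.Alg.run ⟨M.D, M.poly, M.p⟩ A x n a = M.run A x n a
  | 0, _ => rfl
  | n + 1, a => by
    rw [Alg.run, Pool.Agent.H620R2.Gauge.Alg.run]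
    show (match M.D (pairBits x a) with
      | [] => some []
      | true :: z => some z
      | false :: q => Pool.Agent.H620R2.Gauge.Alg.run ⟨M.D, M.poly, M.p⟩ A x n (a ++ [A q])) = _
    rcases hq : M.D (pairBits x a) with _ | ⟨c, q⟩
    · rfl
    · cases c with
      | true => rfl
      | false => exact run_eq M A x n _

theorem toGauge {A : Oracle} {F : List Bool → List Bool} (h : IsFP A F) :
    Pool.Agent.H620R2.Gauge.IsFP A F := by
  obtain ⟨M, hM⟩ := h
  refine ⟨⟨M.D, M.poly, M.p⟩, fun x => ?_⟩
  rw [← hM x]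
  exact run_eq M A x _ _

theorem ofGauge {A : Oracle} {F : List Bool → List Bool}
    (h : Pool.Agent.H620R2.Gauge.IsFP A F) : IsFP A F := by
  obtain ⟨M, hM⟩ := h
  refine ⟨⟨M.D, M.poly, M.p⟩, fun x => ?_⟩
  rw [← hM x]
  exact (run_eq ⟨M.D, M.poly, M.p⟩ A x _ _).symm

theorem loopR {A : Oracle} {S : List Bool → List Bool} (hS : IsFP A S)
    {g : List Bool → List Bool} (hg : Poly g) (T b : Polynomial ℕ)
    (hb : ∀ x : List Bool, ∀ i ≤ T.eval x.length, (S^[i] (g x)).length ≤ b.eval x.length) :
    IsFP A (fun x => S^[T.eval x.length] (g x)) :=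
  ofGauge (Pool.Agent.H620R2.Gauge.IsFP.loop (toGauge hS) hg T b hb)

/-! ### Questions to one part of the joined oracle -/

/-- The action with questions to the first part. -/
def left (l : List Bool) : List Bool := if l.head? = some false then false :: l else l

theorem poly_left : Poly left :=
  Poly.ite (NPC.Poly.decide_eq (Poly.head? Poly.id) (NPC.Poly.const _))
    (Poly.cons (NPC.Poly.const false) Poly.id) Poly.id

theorem isFP_join {A : Oracle} {C : Set (List Bool)} {F : List Bool → List Bool}
    (hF : IsFP A F) : IsFP (join A C) F := by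
  obtain ⟨M, hM⟩ := hF
  have h1 : Poly (fun u => left (M.D u)) :=
    poly_left.comp (Pool.Agent.H660R2.NX.poly_of_polyTime M.poly)
  refine ⟨⟨fun u => left (M.D u), Pool.Agent.H660R2.NX.polyTime_of_poly' h1, M.p⟩, fun x => ?_⟩
  rw [← hM x]
  have key : ∀ (n : ℕ) (a : List Bool),
      (⟨fun u => left (M.D u), Pool.Agent.H660R2.NX.polyTime_of_poly' h1, M.p⟩ : Alg).run
        (join A C) x n a = M.run A x n a := by
    intro n
    induction n with
    | zero => intro a; rfl
    | succ n ih =>
      intro a
      rw [Alg.run, Alg.run]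
      rcases hq : M.D (pairBits x a) with _ | ⟨c, q⟩
      · simp [left, hq]
      · cases c with
        | true => simp [left, hq]
        | false =>
          simp only [left, hq, List.head?_cons, if_true]
          exact ih _
  exact key _ _

/-! ### The reduction -/

theorem length_nx (m : ℕ) (v b a : List Bool) : (nx m v b a).length ≤ v.length + ell m := by
  unfold nx
  rcases h : (((List.range (tg m)).filter (fun i => ((a.drop (i * m)).take m).all id)).map
    (cd m v b)) with _ | ⟨w, l⟩
  · simp
  · have h1 : w ∈ (((List.range (tg m)).filter (fun i => ((a.drop (i * m)).take m).all id)).map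
      (cd m v b)) := by rw [h]; simp
    obtain ⟨i, hi, rfl⟩ := List.mem_map.1 h1
    have h2 := List.mem_range.1 (List.mem_filter.1 hi).1
    simp only [List.head?_cons, Option.getD_some]
    unfold cd ell
    rw [List.length_append, List.length_append, length_tgs h2, List.length_take]
    omega

theorem length_vs (lev : ℕ → ℕ) (A : Oracle) (m : ℕ) : ∀ s, (vs lev A m s).length ≤ s * ell m
  | 0 => by simp [vs]
  | s + 1 => by
    have ih := length_vs lev A m s
    have h1 : vs lev A m (s + 1) = nxt lev A m (vs lev A m s) := by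
      unfold vs
      rw [Function.iterate_succ_apply']
    rw [h1, add_mul, one_mul]
    exact (length_nx _ _ _ _).trans (by omega)

/-- One step: the questions to the set. -/
theorem step1 (m₀ : ℕ) (lev : ℕ → ℕ) (A : Oracle) : ∃ S : List Bool → List Bool,
    IsFP (join A (CC lev A)) S ∧ ∀ y v : List Bool,
      S (pairBits y v) = pairBits (pairBits y v) (block lev A (mm m₀ y) v) := by
  have k1 : Poly (fun s : List Bool => (unpair s).2) := Poly.snd poly_unpair
  have hQ : Poly (fun s : List Bool =>
      (ql (mm m₀ (unpair s).1) (unpair s).2).map (fun q => true :: q)) :=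
    NPC.Poly.map (F := fun _ q => true :: q) (p_ql (u_mm1 m₀) k1)
      (Poly.cons (NPC.Poly.const true) (Poly.snd Poly.id))
  have hH : Poly (fun p : List Bool × List Bool => pairBits p.1 p.2) :=
    H622R2.poly_pairBits (Poly.fst Poly.id) (Poly.snd Poly.id)
  refine ⟨_, IsFP.tt (A := join A (CC lev A)) hQ hH, fun y v => ?_⟩
  simp only [unpair_pairBits, List.map_map]
  rfl

/-- One step: the questions to the oracle. -/
theorem step2 (m₀ : ℕ) (lev : ℕ → ℕ) (A : Oracle) : ∃ S : List Bool → List Bool,
    IsFP (join A (CC lev A)) S ∧ ∀ y v b : List Bool,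
      S (pairBits (pairBits y v) b) = pairBits y (nx (mm m₀ y) v b ((qk (mm m₀ y) v b).map A)) := by
  have k1 : Poly (fun s : List Bool => unpair (unpair s).1) :=
    poly_unpair.comp (Poly.fst poly_unpair)
  have k2 : Poly (fun s : List Bool => (unpair s).2) := Poly.snd poly_unpair
  have hm : UPoly (fun s : List Bool => mm m₀ (unpair (unpair s).1).1) := u_mm (Poly.fst k1) m₀
  have hQ : Poly (fun s : List Bool =>
      (qk (mm m₀ (unpair (unpair s).1).1) (unpair (unpair s).1).2 (unpair s).2).map
        (fun q => false :: q)) :=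
    NPC.Poly.map (F := fun _ q => false :: q) (p_qk hm (Poly.snd k1) k2)
      (Poly.cons (NPC.Poly.const false) (Poly.snd Poly.id))
  have e1 : Poly (fun p : List Bool × List Bool => p.1) := Poly.fst Poly.id
  have hH : Poly (fun p : List Bool × List Bool => pairBits (unpair (unpair p.1).1).1
      (nx (mm m₀ (unpair (unpair p.1).1).1) (unpair (unpair p.1).1).2 (unpair p.1).2 p.2)) :=
    H622R2.poly_pairBits ((Poly.fst k1).comp e1) (p_nx (hm.comp e1) ((Poly.snd k1).comp e1)
      (k2.comp e1) (Poly.snd Poly.id))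
  refine ⟨_, IsFP.tt (A := join A (CC lev A)) hQ hH, fun y v b => ?_⟩
  simp only [unpair_pairBits, List.map_map]
  rfl

theorem stepR (m₀ : ℕ) (lev : ℕ → ℕ) (A : Oracle) : ∃ S : List Bool → List Bool,
    IsFP (join A (CC lev A)) S ∧ ∀ y v : List Bool,
      S (pairBits y v) = pairBits y (nxt lev A (mm m₀ y) v) := by
  obtain ⟨S1, h1, e1⟩ := step1 m₀ lev A
  obtain ⟨S2, h2, e2⟩ := step2 m₀ lev A
  refine ⟨_, IsFP.comp h2 h1, fun y v => ?_⟩
  simp only [e1, e2]
  rfl

/-- The last question. -/
theorem stepL (m₀ : ℕ) (lev : ℕ → ℕ) (A : Oracle) : ∃ S : List Bool → List Bool,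
    IsFP (join A (CC lev A)) S ∧ ∀ y v : List Bool,
      (S (pairBits y v) = [true] ↔ fq (mm m₀ y) v y ∈ CC lev A) := by
  classical
  have k1 : Poly (fun s : List Bool => (unpair s).2) := Poly.snd poly_unpair
  have hQ : Poly (fun s : List Bool => [true :: fq (mm m₀ (unpair s).1) (unpair s).2 (unpair s).1]) :=
    NPC.Poly.cons (Poly.cons (NPC.Poly.const true) (p_fq (u_mm1 m₀) k1 q1)) (NPC.Poly.const [])
  have hH : Poly (fun p : List Bool × List Bool => p.2) := Poly.snd Poly.id
  refine ⟨_, IsFP.tt (A := join A (CC lev A)) hQ hH, fun y v => ?_⟩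
  simp only [unpair_pairBits, List.map_cons, List.map_nil, join, List.cons.injEq, and_true,
    decide_eq_true_eq]

/-- The set with as many keys as the index is complete under Turing reductions. -/
theorem turing_complete {A : Oracle} (hA : ∃ m₀, ∀ m ≥ m₀, A ∉ Bad m)
    {B : Set (List Bool)} (hB : IsNP A B) : TuringRed A B (CC (fun m => m) A) := by
  obtain ⟨m₀, hm₀⟩ := hA
  obtain ⟨f, hf, hfB⟩ := hard_KA A B hB
  obtain ⟨S, hS, eS⟩ := stepR m₀ (fun m => m) A
  obtain ⟨L, hL, eL⟩ := stepL m₀ (fun m => m) A
  have hit : ∀ (y : List Bool) (i : ℕ), S^[i] (pairBits y []) =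
      pairBits y (vs (fun m => m) A (mm m₀ y) i) := by
    intro y i
    induction i with
    | zero => rfl
    | succ i ih =>
      rw [Function.iterate_succ_apply', ih, eS]
      unfold vs
      rw [Function.iterate_succ_apply']
  set T : Polynomial ℕ := qb + Polynomial.C m₀ with hT
  have hTe : ∀ y : List Bool, T.eval y.length = mm m₀ y := by
    intro y
    rw [hT]
    simp [mm]
  have hloop := loopR hS (g := fun y => pairBits y []) (H622R2.poly_pairBits Poly.id
    (NPC.Poly.const [])) T (2 * Polynomial.X + 1 + T * (8 * (T + 1) ^ 2 + T)) (fun y i hi => by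
      rw [hit, H628R3.RO.length_pairBits]
      have h1 := length_vs (fun m => m) A (mm m₀ y) i
      have h2 : i * ell (mm m₀ y) ≤ mm m₀ y * ell (mm m₀ y) :=
        Nat.mul_le_mul_right _ (by rw [← hTe]; exact hi)
      simp only [Polynomial.eval_add, Polynomial.eval_mul, Polynomial.eval_ofNat,
        Polynomial.eval_X, Polynomial.eval_one, Polynomial.eval_pow, hTe]
      unfold ell tg at h1 h2
      omega)
  refine ⟨_, IsFP.comp hL (IsFP.comp hloop (isFP_join hf)), fun x => ?_⟩
  simp only [hTe, hit, eL, mem_CC_fq]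
  rw [hfB]
  have hbad : A ∉ Bad (mm m₀ (f x)) := hm₀ _ (by unfold mm; omega)
  constructor
  · intro h
    exact ⟨(vs_spec hbad _ le_rfl).2, by unfold mm; omega, h⟩
  · exact fun h => h.2.2

end Pool.Agent.L0h33.TT
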