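import Pool.Agent.L0h33.TT.Null
import Pool.Agent.L0h33.TT.Tur

/-!
# The theorem
-/

set_option autoImplicit false

namespace Pool.Agent.L0h33.TT

open MeasureTheory
open Pool.Agent.NPC Pool.Agent.H628R3.RO

attribute [local irreducible] unpair

theorem poly_countable : Countable (Polynomial ℕ) := by
  have : Function.Injective (fun p : Polynomial ℕ => (p.toFinsupp.coeff : ℕ →₀ ℕ)) := by
    intro p q h
    ext n
    exact DFunLike.congr_fun h n
  exact this.countable

theorem corr_of_red {lev : ℕ → ℕ} {A : Oracle} {p : Polynomial ℕ} {r : ℕ → ℕ}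
    (h : RoundRed A r (LT p A) (CC lev A)) : ∃ (M : Alg × Polynomial ℕ) (N : Alg),
      ∀ n, A ∈ Corr lev M N p (r n) n := by
  classical
  obtain ⟨F, G, b, ⟨M, hM⟩, ⟨N, hN⟩, hb, hx⟩ := h
  refine ⟨(M, b), N, fun n => ?_⟩
  have hs' : ∀ i ≤ r n, hs lev (M, b) (ones n) A i = hist (CC lev A) F (ones n) i := by
    intro i
    induction i with
    | zero => intro _; rfl
    | succ i ih =>
      intro hi
      have h1 : hist (CC lev A) F (ones n) (i + 1) = hist (CC lev A) F (ones n) i ++
          (F (pairBits (ones n) (hist (CC lev A) F (ones n) i))).map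
            (fun q => decide (q ∈ CC lev A)) := rfl
      rw [hs_succ, h1, ih (by omega)]
      congr 2
      unfold ls FF
      rw [ih (by omega)]
      have h2 : outA M A (pairBits (ones n) (hist (CC lev A) F (ones n) i)) =
          encL (F (pairBits (ones n) (hist (CC lev A) F (ones n) i))) := by
        unfold outA
        rw [hM]
        rfl
      have h3 := hb (ones n) i (by rw [List.length_replicate]; omega)
      simp only [unpair_pairBits]
      rw [h2, List.take_of_length_le h3, decL_encL]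
  have h4 : outA N A (pairBits (ones n) (hs lev (M, b) (ones n) A (r n))) =
      G (pairBits (ones n) (hist (CC lev A) F (ones n) (r n))) := by
    unfold outA
    rw [hN, hs' _ le_rfl]
    rfl
  unfold Corr
  rw [Set.mem_ofPred_eq, h4]
  have h5 := hx (ones n)
  rw [List.length_replicate] at h5
  exact h5

theorem ae_one : ∀ᵐ A ∂randomOracle, ∀ k, ¬ RoundRed A (fun _ => k) (LT 0 A) (CC (fun _ => k) A) := by
  have hc : Countable (Polynomial ℕ) := poly_countable
  have h1 : ∀ i : (Alg × Polynomial ℕ) × Alg × ℕ, ∀ᵐ A ∂randomOracle,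
      ¬ ∀ n, A ∈ Corr (fun _ => i.2.2) i.1 i.2.1 0 i.2.2 n := by
    intro i
    have h2 := null_corr (fun _ => i.2.2) i.1 i.2.1 0 (r := fun _ => i.2.2)
      (kp := Polynomial.C i.2.2) (fun n => by simp) ⟨0, fun _ _ _ _ => le_rfl⟩
    rw [ae_iff]
    simpa using h2
  rw [← ae_all_iff] at h1
  filter_upwards [h1] with A hA k hr
  obtain ⟨M, N, h⟩ := corr_of_red hr
  exact hA (M, N, k) h

theorem ae_two : ∀ᵐ A ∂randomOracle, ∀ p : Polynomial ℕ,
    ¬ RoundRed A (fun n => p.eval n) (LT p A) (CC (fun m => m) A) := by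
  have hc : Countable (Polynomial ℕ) := poly_countable
  have h1 : ∀ i : (Alg × Polynomial ℕ) × Alg × Polynomial ℕ, ∀ᵐ A ∂randomOracle,
      ¬ ∀ n, A ∈ Corr (fun m => m) i.1 i.2.1 i.2.2 (i.2.2.eval n) n := by
    intro i
    have h2 := null_corr (fun m => m) i.1 i.2.1 i.2.2 (r := fun n => i.2.2.eval n)
      (kp := i.2.2) (fun n => le_rfl) ⟨0, fun n _ m hm => (Nat.le_add_left _ _).trans hm⟩
    rw [ae_iff]
    simpa using h2
  rw [← ae_all_iff] at h1
  filter_upwards [h1] with A hA p hr
  obtain ⟨M, N, h⟩ := corr_of_red hr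
  exact hA (M, N, p) h

theorem niceL_const (k : ℕ) : NiceL (fun _ => k) := fun _ _ => UPoly.const k

theorem niceL_id : NiceL (fun m => m) := fun _ h => h

theorem LT_tally (p : Polynomial ℕ) (A : Oracle) : ∀ x ∈ LT p A, x = List.replicate x.length true :=
  fun _ hx => hx.1

theorem main : ∀ᵐ A ∂randomOracle,
    (∃ B : Set (List Bool), IsNP A B ∧ (∀ x ∈ B, x = List.replicate x.length true) ∧
      ∀ k : ℕ, ∃ C : Set (List Bool), IsNP A C ∧
        (∀ L, IsNP A L → RoundRed A (fun _ => k + 1) L C) ∧ ¬ RoundRed A (fun _ => k) B C) ∧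
    ∃ C : Set (List Bool), IsNP A C ∧ (∀ L, IsNP A L → TuringRed A L C) ∧
      ∀ p : Polynomial ℕ, ∃ B : Set (List Bool), IsNP A B ∧
        (∀ x ∈ B, x = List.replicate x.length true) ∧ ¬ RoundRed A (fun n => p.eval n) B C := by
  filter_upwards [ae_one, ae_two, ae_keys] with A h1 h2 h3
  refine ⟨⟨LT 0 A, isNP_LT 0 A, LT_tally 0 A, fun k => ⟨CC (fun _ => k) A,
    isNP_CC (niceL_const k) A, fun L hL => round_complete k h3 hL, h1 k⟩⟩,
    CC (fun m => m) A, isNP_CC niceL_id A, fun L hL => turing_complete h3 hL, fun p =>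
      ⟨LT p A, isNP_LT p A, LT_tally p A, h2 p⟩⟩

end Pool.Agent.L0h33.TT
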