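import Pool.Agent.L0h33.TT.Pol

/-!
# The sets are in NP
-/

set_option autoImplicit false

namespace Pool.Agent.L0h33.TT

open Pool.Agent.NPC Pool.Agent.H628R3.RO
open Pool.Agent.H673R2.OneTT (KA uA uA_total)

attribute [local irreducible] unpair

/-- The number of keys is computable in polynomial time. -/
def NiceL (lev : ℕ → ℕ) : Prop := ∀ n : List Bool → ℕ, UPoly n → UPoly (fun y => lev (n y))

/-- The positions of the keys in a label. -/
def vq (lev : ℕ → ℕ) (q : List Bool) : List (List Bool) :=
  (List.range (lev (idx q))).flatMap (fun i =>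
    asks (idx q) (2 * idx q + 1) ((lab q).drop (i * ell (idx q))))

theorem p_vq {lev : ℕ → ℕ} (hl : NiceL lev) : Poly (fun y : List Bool =>
    vq lev (unpair y).1) := by
  have h0 : Poly (fun y : List Bool => (unpair y).1) := Poly.fst poly_unpair
  have h1 : Poly (fun p : List Bool × ℕ => p.1) := Poly.fst Poly.id
  have hi : UPoly (fun y : List Bool => idx (unpair y).1) := u_idx h0
  have hlev : UPoly (fun y : List Bool => lev (idx (unpair y).1)) := hl _ hi
  refine p_rangeFlat (F := fun (y : List Bool) i => asks (idx (unpair y).1)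
    (2 * idx (unpair y).1 + 1) ((lab (unpair y).1).drop (i * ell (idx (unpair y).1)))) hlev ?_
  exact p_asks (hi.comp h1) ((((UPoly.const 2).mul hi).add (UPoly.const 1)).comp h1)
    (p_drop ((p_lab h0).comp h1) ((u_min hlev).mul ((u_ell hi).comp h1)))

theorem vq_all {lev : ℕ → ℕ} {q : List Bool} {A : Oracle} :
    ((vq lev q).map A).all id = true ↔
      ∀ i < lev (idx q), Hit (idx q) (2 * idx q + 1, (lab q).drop (i * ell (idx q))) A := by
  rw [List.all_eq_true]
  constructor
  · intro h i hi j hj
    refine h _ (List.mem_map.2 ⟨pos (2 * idx q + 1) j ((lab q).drop (i * ell (idx q))), ?_, rfl⟩)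
    exact List.mem_flatMap.2 ⟨i, List.mem_range.2 hi, List.mem_map.2 ⟨j, List.mem_range.2 hj, rfl⟩⟩
  · intro h b hb
    obtain ⟨y, hy, rfl⟩ := List.mem_map.1 hb
    obtain ⟨i, hi, hy⟩ := List.mem_flatMap.1 hy
    obtain ⟨j, hj, rfl⟩ := List.mem_map.1 hy
    exact h i (List.mem_range.1 hi) j (List.mem_range.1 hj)

/-- The check of a query of the first kind. -/
theorem check1 (A : Oracle) : ∃ V : List Bool → List Bool, IsFP A V ∧ ∀ q w : List Bool,
    V (pairBits q w) = [true] ↔ (q.head? = some false ∧ (unpair (arg q)).1.length = tg (idx q) ∧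
      w.length = idx q ∧ w.getD (unpair (arg q)).2.length false = true ∧
      Hit (idx q) (2 * idx q + 1, (unpair (arg q)).1 ++ (w ++ lab q)) A) := by
  have h0 : Poly (fun y : List Bool => (unpair y).1) := Poly.fst poly_unpair
  have h1 : Poly (fun y : List Bool => (unpair y).2) := Poly.snd poly_unpair
  have hi : UPoly (fun y : List Bool => idx (unpair y).1) := u_idx h0
  have ha : Poly (fun y : List Bool => unpair (arg (unpair y).1)) := poly_unpair.comp (p_arg h0)
  have hQ : Poly (fun y : List Bool => asks (idx (unpair y).1) (2 * idx (unpair y).1 + 1)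
      ((unpair (arg (unpair y).1)).1 ++ ((unpair y).2 ++ lab (unpair y).1))) :=
    p_asks hi (((UPoly.const 2).mul hi).add (UPoly.const 1))
      (Poly.append (Poly.fst ha) (Poly.append h1 (p_lab h0)))
  have e1 : Poly (fun p : List Bool × List Bool => p.1) := Poly.fst Poly.id
  have hH : Poly (fun p : List Bool × List Bool =>
      [(decide ((unpair p.1).1.head? = some false) &&
        decide ((unpair (arg (unpair p.1).1)).1.length = tg (idx (unpair p.1).1))) &&
        ((decide ((unpair p.1).2.length = idx (unpair p.1).1) &&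
        (unpair p.1).2.getD (unpair (arg (unpair p.1).1)).2.length false) && p.2.all id)]) := by
    refine NPC.Poly.cons (NPC.Poly.and (NPC.Poly.and ?_ ?_) (NPC.Poly.and (NPC.Poly.and ?_ ?_)
      (p_all_id (Poly.snd Poly.id)))) (NPC.Poly.const [])
    · exact (NPC.Poly.decide_eq (Poly.head? h0) (NPC.Poly.const _)).comp e1
    · exact (NPC.Poly.decide_eq (Poly.length (Poly.fst ha)) (u_tg hi).toPoly).comp e1
    · exact (NPC.Poly.decide_eq (Poly.length h1) hi.toPoly).comp e1
    · exact (Poly.getD h1 (Poly.length (Poly.snd ha)) (NPC.Poly.const _)).comp e1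
  refine ⟨_, IsFP.tt (A := A) hQ hH, fun q w => ?_⟩
  simp only [unpair_pairBits, List.cons.injEq, and_true, Bool.and_eq_true, decide_eq_true_eq,
    asks_all]
  tauto

/-- The check of a query of the second kind, without the witness for the complete set. -/
theorem check2 {lev : ℕ → ℕ} (hl : NiceL lev) (A : Oracle) :
    ∃ V : List Bool → List Bool, IsFP A V ∧ ∀ q w : List Bool,
    V (pairBits q w) = [true] ↔ (q.head? = some true ∧ Val A (idx q) (lev (idx q)) (lab q) ∧
      qb.eval (arg q).length ≤ idx q ∧ w.length ≤ (arg q).length) := by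
  have h0 : Poly (fun y : List Bool => (unpair y).1) := Poly.fst poly_unpair
  have h1 : Poly (fun y : List Bool => (unpair y).2) := Poly.snd poly_unpair
  have hi : UPoly (fun y : List Bool => idx (unpair y).1) := u_idx h0
  have hlev : UPoly (fun y : List Bool => lev (idx (unpair y).1)) := hl _ hi
  have e1 : Poly (fun p : List Bool × List Bool => p.1) := Poly.fst Poly.id
  have hH : Poly (fun p : List Bool × List Bool =>
      [(decide ((unpair p.1).1.head? = some true) &&
        decide ((lab (unpair p.1).1).length = lev (idx (unpair p.1).1) *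
          ell (idx (unpair p.1).1))) &&
        ((decide (qb.eval (arg (unpair p.1).1).length ≤ idx (unpair p.1).1) &&
        decide ((unpair p.1).2.length ≤ (arg (unpair p.1).1).length)) && p.2.all id)]) := by
    refine NPC.Poly.cons (NPC.Poly.and (NPC.Poly.and ?_ ?_) (NPC.Poly.and (NPC.Poly.and ?_ ?_)
      (p_all_id (Poly.snd Poly.id)))) (NPC.Poly.const [])
    · exact (NPC.Poly.decide_eq (Poly.head? h0) (NPC.Poly.const _)).comp e1
    · exact (NPC.Poly.decide_eq (Poly.length (p_lab h0)) (hlev.mul (u_ell hi)).toPoly).comp e1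
    · exact (NPC.Poly.decide_le (UPoly.eval (UPoly.length (p_arg h0)) qb).toPoly
        hi.toPoly).comp e1
    · exact (NPC.Poly.decide_le (Poly.length h1) (Poly.length (p_arg h0))).comp e1
  refine ⟨_, IsFP.tt (A := A) (p_vq hl) hH, fun q w => ?_⟩
  simp only [unpair_pairBits, List.cons.injEq, and_true, Bool.and_eq_true, decide_eq_true_eq,
    vq_all, Val]
  tauto

theorem isNP_CC {lev : ℕ → ℕ} (hl : NiceL lev) (A : Oracle) : IsNP A (CC lev A) := by
  obtain ⟨V1, hV1, e1⟩ := check1 A
  obtain ⟨V2, hV2, e2⟩ := check2 hl A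
  choose F hF using uA_total A
  have hF' : IsFP A F := ⟨uA, hF⟩
  have h0 : Poly (fun y : List Bool => (unpair y).1) := Poly.fst poly_unpair
  have h1 : Poly (fun y : List Bool => (unpair y).2) := Poly.snd poly_unpair
  have hV3 : IsFP A (fun y : List Bool => F (pairBits (arg (unpair y).1) (unpair y).2)) :=
    IsFP.comp hF' (IsFP.of_poly (H622R2.poly_pairBits (p_arg h0) h1))
  have hP := IsFP.pair hV1 (IsFP.pair hV2 hV3)
  have hO : Poly (fun y : List Bool => [decide ((unpair y).1 = [true]) ||
      (decide ((unpair (unpair y).2).1 = [true]) && decide ((unpair (unpair y).2).2 = [true]))]) := by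
    have h2 : Poly (fun y : List Bool => unpair (unpair y).2) := poly_unpair.comp h1
    exact NPC.Poly.cons (NPC.Poly.or (NPC.Poly.decide_eq h0 (NPC.Poly.const _))
      (NPC.Poly.and (NPC.Poly.decide_eq (Poly.fst h2) (NPC.Poly.const _))
        (NPC.Poly.decide_eq (Poly.snd h2) (NPC.Poly.const _)))) (NPC.Poly.const [])
  refine ⟨_, Polynomial.X, IsFP.comp (IsFP.of_poly hO) hP, fun q => ?_⟩
  simp only [Polynomial.eval_X, unpair_pairBits, List.cons.injEq, and_true, Bool.or_eq_true,
    Bool.and_eq_true, decide_eq_true_eq, e1, e2]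
  have hq := query_len q
  unfold CC KA
  simp only [Set.mem_ofPred_eq]
  constructor
  · rintro (⟨h3, h4, z, h5, h6, h7⟩ | ⟨h3, h4, h5, w, h6, h7⟩)
    · exact ⟨z, by omega, Or.inl ⟨h3, h4, h5, h6, h7⟩⟩
    · refine ⟨w, by omega, Or.inr ⟨⟨h3, h4, h5, h6⟩, ?_⟩⟩
      rw [hF] at h7
      exact Option.some.inj h7
  · rintro ⟨w, _, (⟨h3, h4, h5, h6, h7⟩ | ⟨⟨h3, h4, h5, h6⟩, h7⟩)⟩
    · exact Or.inl ⟨h3, h4, w, h5, h6, h7⟩
    · exact Or.inr ⟨h3, h4, h5, w, h6, by rw [hF, h7]⟩

theorem isNP_LT (p : Polynomial ℕ) (A : Oracle) : IsNP A (LT p A) := by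
  have k0 : Poly (fun y : List Bool => unpair y) := poly_unpair
  have k1 : Poly (fun y : List Bool => (unpair y).1) := k0.fst
  have k2 : Poly (fun y : List Bool => (unpair y).2) := k0.snd
  have kl : UPoly (fun y : List Bool => (unpair y).1.length) := UPoly.length k1
  have hQ : Poly (fun y : List Bool => asks (unpair y).1.length
      (2 * ((unpair y).1.length + p.eval (unpair y).1.length)) (unpair y).2) :=
    p_asks kl ((UPoly.const 2).mul (kl.add (UPoly.eval kl p))) k2
  have e1 : Poly (fun p : List Bool × List Bool => (unpair p.1).1) :=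
    k1.comp (NPC.Poly.fst NPC.Poly.id)
  have e2 : Poly (fun p : List Bool × List Bool => (unpair p.1).2) :=
    k2.comp (NPC.Poly.fst NPC.Poly.id)
  have hH : Poly (fun p : List Bool × List Bool =>
      [(decide ((unpair p.1).1 = (unpair p.1).1.map (fun _ => true)) &&
        decide ((unpair p.1).2.length = (unpair p.1).1.length)) && p.2.all id]) :=
    NPC.Poly.cons (NPC.Poly.and (NPC.Poly.and (NPC.Poly.decide_eq e1 (NPC.Poly.map
      (F := fun _ _ => true) e1 (NPC.Poly.const true)))
      (NPC.Poly.decide_eq (Poly.length e2) (Poly.length e1)))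
      (p_all_id (NPC.Poly.snd NPC.Poly.id))) (NPC.Poly.const [])
  refine ⟨_, Polynomial.X, IsFP.tt (A := A) hQ hH, fun x => ?_⟩
  unfold LT
  rw [Set.mem_ofPred_eq]
  simp only [unpair_pairBits, List.cons.injEq, and_true, Bool.and_eq_true, decide_eq_true_eq,
    List.map_const', Polynomial.eval_X, asks_all]
  constructor
  · rintro ⟨h1, w, hw, hh⟩
    exact ⟨w, hw.le, ⟨h1, hw⟩, hh⟩
  · rintro ⟨w, _, ⟨h1, hw⟩, hh⟩
    exact ⟨h1, w, hw, hh⟩

end Pool.Agent.L0h33.TT
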