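import Pool.Agent.H628R3.RO.M2
import Pool.Agent.H628R3.RO.M4
import Pool.Agent.H628R3.RO.D1

/-!
# Planting a hit
-/

set_option autoImplicit false

namespace Pool.Agent.L0h33.TT

open MeasureTheory
open Pool.Agent.H628R3.RO
open Pool.Agent.H628R3.RO.M2 (prob_nonneg prob_mono allSpots_singleton sum_prob_le
  measurable_plant measurableSet_noHit measurableSet_hitSet prob_inter_add_compl mem_spots)

/-- If few plantings keep the event `T`, for the oracles in `T ∩ D` without hits, then `T` has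
bounded probability. -/
theorem plant_step {c m t0 : ℕ} (hm : 1 ≤ m) (h8 : 8 * t0 ≤ 2 ^ m) {K : Set (List Bool)}
    (hK : K.Finite) {S T D : Set Oracle} (hS : Loc K S) (hTm : MeasurableSet T)
    (hDm : MeasurableSet D) (hKn : ∀ (i : ℕ) (w : List Bool), pos c i w ∉ K)
    (hfew : ∀ B ∈ NoHit m (cands {c} m), B ∈ T → B ∈ D → ∃ F : Finset Cand, F.card ≤ t0 ∧
      ∀ κ ∈ cands {c} m, plant (spots m κ) B ∈ T → κ ∈ F) :
    prob (S ∩ T) ≤ 25 / 32 * prob S + prob Dᶜ := by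
  classical
  set W := cands {c} m with hW
  set NH := NoHit m W with hNH
  set q : ℝ := (1 / 2) ^ m with hq
  have hq0 : 0 < q := by positivity
  have hq1 : q ≤ 1 / 2 := by
    calc q ≤ (1 / 2) ^ 1 := pow_le_pow_of_le_one (by norm_num) (by norm_num) hm
      _ = 1 / 2 := pow_one _
  have hqm : q * (2 ^ m : ℕ) = 1 := half_pow_mul m
  have hcard : W.card = 2 ^ m := by rw [hW, card_cands]; simp
  have hWκ : ∀ κ ∈ W, κ.1 = c := fun κ hκ => by
    have := (mem_cands.1 hκ).1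
    simpa using this
  have hSm : MeasurableSet S := measurableSet_of_loc hK hS
  have hNHm : MeasurableSet NH := measurableSet_noHit m W
  have hKW : ∀ κ ∈ W, ∀ i < m, pos κ.1 i κ.2 ∉ K := fun κ hκ i _ => by
    rw [hWκ κ hκ]
    exact hKn i κ.2
  have hplS : ∀ κ ∈ W, plant (spots m κ) ⁻¹' S = S := by
    intro κ hκ
    ext A
    rw [Set.mem_preimage]
    refine hS _ _ fun x hx => ?_
    unfold plant
    rw [if_neg]
    intro hx'
    obtain ⟨i, hi, rfl⟩ := mem_spots.1 hx'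
    exact hKW κ hκ i hi hx
  -- the probabilities
  set b := prob (S ∩ NH) with hb
  set a := prob (S ∩ NH ∩ T) with ha
  set a' := prob (S ∩ NH ∩ (T ∩ D)) with ha'
  have hb1 : 1 / 4 * prob S ≤ b := by
    rw [hb, hNH, prob_noHit_inter hK hS m W hKW, hcard]
    have h1 := sat_ge hm 1
    rw [pow_one, one_mul] at h1
    nlinarith [prob_nonneg S]
  have hba : prob (S ∩ NH ∩ Tᶜ) = b - a := by
    have := prob_inter_add_compl (S ∩ NH) hTm
    linarith
  have hba2 : prob (S ∩ NH ∩ (T ∩ D)ᶜ) = b - a' := by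
    have := prob_inter_add_compl (S ∩ NH) (hTm.inter hDm)
    linarith
  have haa : a ≤ a' + prob Dᶜ := by
    refine le_trans (prob_mono (S' := (S ∩ NH ∩ (T ∩ D)) ∪ Dᶜ) ?_) (measureReal_union_le _ _)
    rintro A ⟨h1, h2⟩
    by_cases h3 : A ∈ D
    · exact Or.inl ⟨h1, h2, h3⟩
    · exact Or.inr h3
  have ha0 : 0 ≤ a' := prob_nonneg _
  have hδ0 : 0 ≤ prob Dᶜ := prob_nonneg _
  have hba0 : 0 ≤ b - a := by rw [← hba]; exact prob_nonneg _
  have hba20 : 0 ≤ b - a' := by rw [← hba2]; exact prob_nonneg _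
  have hH : ∀ κ ∈ W, prob (S ∩ HitSet m W {κ}) * (1 - q) = q * b := by
    intro κ hκ
    have h1 := prob_hitSet hSm m (W := W) (h := {κ}) (Finset.singleton_subset_iff.2 hκ)
    rw [Finset.card_singleton, pow_one, pow_one, allSpots_singleton, hplS κ hκ] at h1
    exact h1
  have hHT : ∀ κ ∈ W, prob (S ∩ T ∩ HitSet m W {κ}) * (1 - q) =
      q * prob (S ∩ NH ∩ plant (spots m κ) ⁻¹' T) := by
    intro κ hκ
    have h1 := prob_hitSet (hSm.inter hTm) m (W := W) (h := {κ})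
      (Finset.singleton_subset_iff.2 hκ)
    rw [Finset.card_singleton, pow_one, pow_one, allSpots_singleton, Set.preimage_inter,
      hplS κ hκ] at h1
    rw [h1]
    congr 2
    ext A
    simp only [Set.mem_inter_iff]
    tauto
  have hsum : ∑ κ ∈ W, prob (S ∩ NH ∩ plant (spots m κ) ⁻¹' T) ≤
      t0 * a' + 2 ^ m * (b - a') := by
    have h1 : ∀ κ ∈ W, prob (S ∩ NH ∩ plant (spots m κ) ⁻¹' T) ≤
        prob (S ∩ NH ∩ (T ∩ D) ∩ plant (spots m κ) ⁻¹' T) + (b - a') := by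
      intro κ _
      rw [← hba2]
      refine le_trans (prob_mono ?_) (measureReal_union_le _ _)
      rintro A ⟨⟨h1, h2⟩, h3⟩
      by_cases h4 : A ∈ T ∩ D
      · exact Or.inl ⟨⟨⟨h1, h2⟩, h4⟩, h3⟩
      · exact Or.inr ⟨⟨h1, h2⟩, h4⟩
    refine (Finset.sum_le_sum h1).trans ?_
    rw [Finset.sum_add_distrib, Finset.sum_const, hcard, nsmul_eq_mul]
    have h2 := sum_prob_le (S := S ∩ NH ∩ (T ∩ D)) ((hSm.inter hNHm).inter (hTm.inter hDm)) W
      (fun κ => plant (spots m κ) ⁻¹' T) (fun κ => (measurable_plant _) hTm) t0 (by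
        rintro B ⟨⟨_, hB1⟩, hB2⟩
        exact hfew B hB1 hB2.1 hB2.2)
    push_cast
    linarith
  have hqt : q * t0 ≤ 1 / 8 := by
    have h1 : (8 : ℝ) * t0 ≤ (2 ^ m : ℕ) := by exact_mod_cast h8
    nlinarith
  -- the failure probability
  have hdis : ∀ κ ∈ W, ∀ κ' ∈ W, κ ≠ κ' →
      Disjoint (S ∩ Tᶜ ∩ HitSet m W {κ}) (S ∩ Tᶜ ∩ HitSet m W {κ'}) := by
    intro κ hκ κ' _ hne
    rw [Set.disjoint_left]
    rintro A ⟨_, hA⟩ ⟨_, hA'⟩
    have h1 := (hA κ hκ).2 (Finset.mem_singleton_self _)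
    have h2 := (hA' κ hκ).1 h1
    exact hne (Finset.mem_singleton.1 h2)
  have hfail : (b - a) + ∑ κ ∈ W, prob (S ∩ Tᶜ ∩ HitSet m W {κ}) ≤ prob (S ∩ Tᶜ) := by
    have h1 : prob (⋃ κ ∈ W, S ∩ Tᶜ ∩ HitSet m W {κ}) =
        ∑ κ ∈ W, prob (S ∩ Tᶜ ∩ HitSet m W {κ}) := by
      unfold prob
      rw [measureReal_biUnion_finset]
      · exact fun κ hκ κ' hκ' hne => hdis κ hκ κ' hκ' hne
      · exact fun κ _ => (hSm.inter hTm.compl).inter (measurableSet_hitSet _ _ _)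
    rw [← h1, ← hba]
    have h2 : Disjoint (S ∩ NH ∩ Tᶜ) (⋃ κ ∈ W, S ∩ Tᶜ ∩ HitSet m W {κ}) := by
      rw [Set.disjoint_left]
      rintro A ⟨⟨_, h3⟩, _⟩ h4
      simp only [Set.mem_iUnion, exists_prop] at h4
      obtain ⟨κ, hκ, _, h5⟩ := h4
      exact h3 κ hκ ((h5 κ hκ).2 (Finset.mem_singleton_self _))
    have h3 : MeasurableSet (⋃ κ ∈ W, S ∩ Tᶜ ∩ HitSet m W {κ}) :=
      Finset.measurableSet_biUnion _ fun κ _ =>
        (hSm.inter hTm.compl).inter (measurableSet_hitSet _ _ _)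
    have h4 : prob ((S ∩ NH ∩ Tᶜ) ∪ (⋃ κ ∈ W, S ∩ Tᶜ ∩ HitSet m W {κ})) =
        prob (S ∩ NH ∩ Tᶜ) + prob (⋃ κ ∈ W, S ∩ Tᶜ ∩ HitSet m W {κ}) :=
      measureReal_union h2 h3 (measure_ne_top _ _) (measure_ne_top _ _)
    rw [← h4]
    refine prob_mono ?_
    rintro A (⟨⟨h5, _⟩, h6⟩ | h5)
    · exact ⟨h5, h6⟩
    · simp only [Set.mem_iUnion, exists_prop] at h5
      obtain ⟨κ, _, h6, _⟩ := h5
      exact h6
  have hsplit : ∀ κ ∈ W, prob (S ∩ Tᶜ ∩ HitSet m W {κ}) * (1 - q) =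
      q * b - q * prob (S ∩ NH ∩ plant (spots m κ) ⁻¹' T) := by
    intro κ hκ
    have h1 := prob_inter_add_compl (S ∩ HitSet m W {κ}) hTm
    have h2 : S ∩ HitSet m W {κ} ∩ T = S ∩ T ∩ HitSet m W {κ} := by
      ext A; simp only [Set.mem_inter_iff]; tauto
    have h3 : S ∩ HitSet m W {κ} ∩ Tᶜ = S ∩ Tᶜ ∩ HitSet m W {κ} := by
      ext A; simp only [Set.mem_inter_iff]; tauto
    rw [h2, h3] at h1
    rw [← hH κ hκ, ← hHT κ hκ, ← h1]
    ring
  set sf := ∑ κ ∈ W, prob (S ∩ Tᶜ ∩ HitSet m W {κ}) with hsf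
  have hs1 : sf * (1 - q) = 2 ^ m * (q * b) -
      q * ∑ κ ∈ W, prob (S ∩ NH ∩ plant (spots m κ) ⁻¹' T) := by
    rw [hsf, Finset.sum_mul, Finset.sum_congr rfl hsplit, Finset.sum_sub_distrib,
      Finset.sum_const, hcard, nsmul_eq_mul, Finset.mul_sum]
    push_cast
    rfl
  have hs0 : 0 ≤ sf := Finset.sum_nonneg fun κ _ => prob_nonneg _
  have hqm' : (2 : ℝ) ^ m * q = 1 := by
    have := hqm
    push_cast at this
    linarith
  have hs2 : 7 / 8 * a' ≤ sf * (1 - q) := by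
    rw [hs1]
    have h1 : q * ∑ κ ∈ W, prob (S ∩ NH ∩ plant (spots m κ) ⁻¹' T) ≤
        q * (t0 * a' + 2 ^ m * (b - a')) := mul_le_mul_of_nonneg_left hsum hq0.le
    have h2 : q * (t0 * a' + 2 ^ m * (b - a')) = (q * t0) * a' + (2 ^ m * q) * (b - a') := by ring
    have h3 : (2 : ℝ) ^ m * (q * b) = (2 ^ m * q) * b := by ring
    rw [h2] at h1
    rw [h3]
    rw [hqm'] at h1 ⊢
    nlinarith
  have hs3 : 7 / 8 * a' ≤ sf := by nlinarith
  have h1 := prob_inter_add_compl S hTm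
  nlinarith

end Pool.Agent.L0h33.TT
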