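import Pool.Agent.L0h33.TT.Low
import Pool.Agent.L0h33.TT.Plant
import Pool.Agent.H628R3.RO.G1

/-!
# A reduction with few rounds fails
-/

set_option autoImplicit false

namespace Pool.Agent.L0h33.TT

open MeasureTheory
open Pool.Agent.NPC Pool.Agent.H628R3.RO
open Pool.Agent.H628R3.RO.M2 (prob_nonneg prob_mono sum_prob_le measurable_plant mem_spots
  card_spots hit_iff loc_plant loc_noHit)

attribute [local irreducible] unpair

/-- The string `1 ^ n`. -/
abbrev ones (n : ℕ) : List Bool := List.replicate n true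

/-- The threshold. -/
def th (p : Polynomial ℕ) (n : ℕ) : ℕ := n + p.eval n

theorem mem_LT {p : Polynomial ℕ} {A : Oracle} {n : ℕ} :
    ones n ∈ LT p A ↔ A ∉ NoHit n (cands {2 * th p n} n) := by
  rw [not_mem_noHit]
  unfold LT
  rw [Set.mem_ofPred_eq]
  simp only [List.length_replicate, true_and]
  constructor
  · rintro ⟨w, hw, hh⟩
    exact ⟨(2 * th p n, w), mem_cands.2 ⟨by simp, hw⟩, hh⟩
  · rintro ⟨⟨c, w⟩, hκ, hh⟩
    obtain ⟨h1, h2⟩ := mem_cands.1 hκ
    simp only [Finset.mem_singleton] at h1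
    subst h1
    exact ⟨w, h2, hh⟩

/-- The reduction is right on the input `1 ^ n`. -/
def Corr (lev : ℕ → ℕ) (M : Alg × Polynomial ℕ) (N : Alg) (p : Polynomial ℕ) (k n : ℕ) :
    Set Oracle :=
  {A | ones n ∈ LT p A ↔ outA N A (pairBits (ones n) (hs lev M (ones n) A k)) = [true]}

open Classical in
/-- The candidate to which a string belongs. -/
noncomputable def cof' (q : List Bool) : Cand :=
  if h : ∃ κ : Cand, ∃ i, q = pos κ.1 i κ.2 then h.choose else (0, [])

theorem cof'_eq {q : List Bool} {m : ℕ} {κ : Cand} (h : q ∈ spots m κ) : cof' q = κ := by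
  obtain ⟨i, _, rfl⟩ := mem_spots.1 h
  have h1 : ∃ κ' : Cand, ∃ i', pos κ.1 i κ.2 = pos κ'.1 i' κ'.2 := ⟨κ, i, rfl⟩
  unfold cof'
  rw [dif_pos h1]
  obtain ⟨i', h2⟩ := h1.choose_spec
  obtain ⟨h3, _, h4⟩ := pos_inj h2
  exact (Prod.ext h3 h4).symm

variable {lev : ℕ → ℕ} {M : Alg × Polynomial ℕ} {N : Alg} {p : Polynomial ℕ}

theorem few_changes {n k P R : ℕ} (hn : 1 ≤ n) (hlev : ∀ m ≥ th p n, k ≤ lev m)
    (hP : ∀ A, Bnd lev M k P (ones n) A)
    (hR : ∀ A : Oracle, ∃ D : Finset (List Bool), D.card ≤ R ∧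
      ∀ A' : Oracle, (∀ q ∈ D, A' q = A q) →
        outA N A' (pairBits (ones n) (hs lev M (ones n) A k)) =
          outA N A (pairBits (ones n) (hs lev M (ones n) A k)))
    {B : Oracle} (hB : B ∈ NoHit n (cands {2 * th p n} n)) (hC : B ∈ Corr lev M N p k n)
    (hG : B ∈ Gd lev M (ones n) (th p n) k) :
    ∃ T : Finset Cand, T.card ≤ (k + 1) * P + R ∧
      ∀ κ ∈ cands {2 * th p n} n, plant (spots n κ) B ∈ Corr lev M N p k n → κ ∈ T := by
  classical
  have hD : ∀ i : ℕ, ∃ D : Finset (List Bool), D.card ≤ P ∧ (i ≤ k → ∀ A' : Oracle,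
      (∀ q ∈ D, A' q = B q) → outA M.1 A' (pairBits (ones n) (hs lev M (ones n) B i)) =
        outA M.1 B (pairBits (ones n) (hs lev M (ones n) B i))) := by
    intro i
    by_cases hi : i ≤ k
    · obtain ⟨_, _, _, D, h1, _, h2⟩ := hP B i hi
      exact ⟨D, h1, fun _ => h2⟩
    · exact ⟨∅, by simp, fun h => absurd h hi⟩
  choose D hD1 hD2 using hD
  obtain ⟨E, hE1, hE2⟩ := hR B
  have hth : n ≤ th p n := Nat.le_add_right _ _
  refine ⟨((Finset.range (k + 1)).biUnion D ∪ E).image cof', ?_, fun κ hκ hp => ?_⟩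
  · refine Finset.card_image_le.trans ((Finset.card_union_le _ _).trans
      (Nat.add_le_add (Finset.card_biUnion_le.trans ?_) hE1))
    calc ∑ i ∈ Finset.range (k + 1), (D i).card ≤ ∑ _i ∈ Finset.range (k + 1), P :=
          Finset.sum_le_sum fun i _ => hD1 i
      _ = (k + 1) * P := by simp
  · by_contra hcon
    have hκ1 : κ.1 = 2 * th p n := by
      have := (mem_cands.1 hκ).1
      simpa using this
    set B' := plant (spots n κ) B with hB'
    have hout : ∀ y ∈ (Finset.range (k + 1)).biUnion D ∪ E, B' y = B y := by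
      intro y hy
      rw [hB']
      unfold plant
      rw [if_neg]
      intro hy'
      exact hcon (Finset.mem_image.2 ⟨y, hy, cof'_eq hy'⟩)
    have hne : ∀ (m : ℕ) (u : List Bool), ((2 * m + 1, u) : Cand) ≠ κ := by
      intro m u he
      have := congrArg Prod.fst he
      simp only at this
      omega
    have hval : ∀ (m s : ℕ) (v : List Bool), Val B' m s v ↔ Val B m s v := by
      intro m s v
      unfold Val
      exact and_congr_right fun _ => forall₂_congr fun j _ => hit_plant_ne (hne _ _)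
    have hst := stable (lev := lev) (M := M) (x := ones n) (A := B) (A' := B') (r := k)
      (fun i hi => hD2 i hi B' fun y hy => hout y (Finset.mem_union_left _
        (Finset.mem_biUnion.2 ⟨i, Finset.mem_range.2 (by omega), hy⟩)))
      (fun i hi he q' hq' => by
        rw [he] at hq'
        refine CC_congr (plant_mono _ _) (fun t z ht hz => hit_plant_ne (hne _ _)) ?_
        rcases Nat.lt_or_ge (idx q') (th p n) with h | h
        · right
          refine ⟨hval _ _ _, fun y hy => ?_⟩
          rw [hB']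
          unfold plant
          rw [if_neg]
          intro hy'
          obtain ⟨j, _, rfl⟩ := mem_spots.1 hy'
          rw [length_pos, hκ1] at hy
          omega
        · left
          rw [hval]
          exact no_full (hG i hi) hq' h (by have := hlev _ h; omega))
    have h1 := (hst k le_rfl).1
    have h2 : ones n ∈ LT p B' := by
      rw [mem_LT, not_mem_noHit]
      refine ⟨κ, hκ, fun i hi => ?_⟩
      rw [hB']
      unfold plant
      rw [if_pos (mem_spots.2 ⟨i, hi, rfl⟩)]
    have h3 : ones n ∉ LT p B := by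
      rw [mem_LT]
      exact fun h => h hB
    unfold Corr at hp hC
    rw [Set.mem_ofPred_eq] at hp hC
    have h4 := hp.1 h2
    rw [h1, hE2 B' fun q hq => hout q (Finset.mem_union_right _ hq)] at h4
    exact h3 (hC.2 h4)

theorem loc_Corr {n k P R : ℕ} (hP : ∀ A, Bnd lev M k P (ones n) A)
    (hR : ∀ A : Oracle, ∃ D : Finset (List Bool), (∀ q ∈ D, q.length ≤ R) ∧
      ∀ A' : Oracle, (∀ q ∈ D, A' q = A q) →
        outA N A' (pairBits (ones n) (hs lev M (ones n) A k)) =
          outA N A (pairBits (ones n) (hs lev M (ones n) A k))) :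
    Loc {y | y.length ≤ (4 * P + 3 + ell P) + R + (2 * th p n + 2 * n + 2)}
      (Corr lev M N p k n) := by
  intro A A' h
  have h0 : ∀ y : List Bool, y.length ≤ 4 * P + 3 + ell P → A y = A' y :=
    fun y hy => h y (by rw [Set.mem_ofPred_eq]; omega)
  have h1 := (run_loc hP h0 k le_rfl).1
  obtain ⟨D, h2, h3⟩ := hR A
  have h4 := h3 A' fun q hq => (h q (by
    have := h2 q hq
    rw [Set.mem_ofPred_eq]
    omega)).symm
  unfold Corr
  rw [Set.mem_ofPred_eq, Set.mem_ofPred_eq, h1, h4, mem_LT, mem_LT]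
  refine iff_congr (not_congr ?_) Iff.rfl
  refine loc_noHit (K := {y : List Bool | y.length ≤ (4 * P + 3 + ell P) + R +
    (2 * th p n + 2 * n + 2)}) ?_ A A' h
  intro κ hκ i hi
  obtain ⟨h5, h6⟩ := mem_cands.1 hκ
  simp only [Finset.mem_singleton] at h5
  rw [Set.mem_ofPred_eq, length_pos, h5, h6]
  omega

/-- Polynomials are small compared with the exponential function. -/
theorem poly_lt (P : Polynomial ℕ) : ∀ᶠ n in Filter.atTop, P.eval n < 2 ^ n := by
  have h1 : ∃ C D : ℕ, ∀ n, P.eval n ≤ C * (n + 1) ^ D := by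
    induction P using Polynomial.induction_on' with
    | add p q hp hq =>
      obtain ⟨C, D, hp⟩ := hp
      obtain ⟨C', D', hq⟩ := hq
      refine ⟨C + C', D + D', fun n => ?_⟩
      rw [Polynomial.eval_add, add_mul]
      refine add_le_add ((hp n).trans ?_) ((hq n).trans ?_)
      · exact Nat.mul_le_mul_left _ (Nat.pow_le_pow_right (by omega) (by omega))
      · exact Nat.mul_le_mul_left _ (Nat.pow_le_pow_right (by omega) (by omega))
    | monomial k a =>
      refine ⟨a, k, fun n => ?_⟩
      rw [Polynomial.eval_monomial]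
      exact Nat.mul_le_mul_left _ (Nat.pow_le_pow_left (by omega) _)
  obtain ⟨C, D, h1⟩ := h1
  have h2 : Filter.Tendsto (fun n : ℕ => (n : ℝ) ^ D / 2 ^ n) Filter.atTop (nhds 0) :=
    tendsto_pow_const_div_const_pow_of_one_lt D (by norm_num)
  have h3 : Filter.Tendsto (fun n : ℕ => (2 * C : ℝ) * (((n + 1 : ℕ) : ℝ) ^ D / 2 ^ (n + 1)))
      Filter.atTop (nhds 0) := by
    have := ((Filter.tendsto_add_atTop_iff_nat 1).2 h2).const_mul (2 * C : ℝ)
    simpa using this
  filter_upwards [h3.eventually (gt_mem_nhds (show (0 : ℝ) < 1 by norm_num))] with n hn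
  have h4 : (C : ℝ) * ((n + 1 : ℕ) : ℝ) ^ D < 2 ^ n := by
    rw [pow_succ, ← mul_div_assoc, div_lt_one (by positivity)] at hn
    nlinarith
  have h5 : C * (n + 1) ^ D < 2 ^ n := by exact_mod_cast h4
  exact (h1 n).trans_lt h5

/-- A reduction with `r` rounds to the set with more keys is almost surely wrong. -/
theorem null_corr (lev : ℕ → ℕ) (M : Alg × Polynomial ℕ) (N : Alg) (p : Polynomial ℕ)
    {r : ℕ → ℕ} {kp : Polynomial ℕ} (hr : ∀ n, r n ≤ kp.eval n)
    (hlev : ∃ n₀, ∀ n ≥ n₀, ∀ m ≥ th p n, r n ≤ lev m) :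
    randomOracle {A | ∀ n, A ∈ Corr lev M N p (r n) n} = 0 := by
  obtain ⟨n₀, hlev⟩ := hlev
  obtain ⟨Pp, hPp⟩ := run_bound lev M kp
  obtain ⟨Rp, hRp⟩ := outA_bound N
  have hP : ∀ (n : ℕ) (A : Oracle), Bnd lev M (r n) (Pp.eval n) (ones n) A := by
    intro n A
    have := hPp (ones n) A (r n)
    rw [List.length_replicate] at this
    exact this (hr n)
  have hR : ∀ (n : ℕ) (A : Oracle), ∃ D : Finset (List Bool),
      D.card ≤ (Rp.comp (2 * Polynomial.X + 1 + Pp)).eval n ∧
      (∀ q ∈ D, q.length ≤ (Rp.comp (2 * Polynomial.X + 1 + Pp)).eval n) ∧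
      ∀ A' : Oracle, (∀ q ∈ D, A' q = A q) →
        outA N A' (pairBits (ones n) (hs lev M (ones n) A (r n))) =
          outA N A (pairBits (ones n) (hs lev M (ones n) A (r n))) := by
    intro n A
    obtain ⟨_, D, h1, h2, h3⟩ := hRp A (pairBits (ones n) (hs lev M (ones n) A (r n)))
    have h4 : Rp.eval (pairBits (ones n) (hs lev M (ones n) A (r n))).length ≤
        (Rp.comp (2 * Polynomial.X + 1 + Pp)).eval n := by
      rw [Polynomial.eval_comp]
      refine eval_mono _ ?_
      have := (hP n A (r n) le_rfl).1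
      rw [H628R3.RO.length_pairBits, List.length_replicate]
      simp only [Polynomial.eval_add, Polynomial.eval_mul, Polynomial.eval_ofNat,
        Polynomial.eval_X, Polynomial.eval_one]
      omega
    exact ⟨D, h1.trans h4, fun q hq => (h2 q hq).trans h4, h3⟩
  set Rq := Rp.comp (2 * Polynomial.X + 1 + Pp) with hRq
  have key : ∀ j : ℕ, ∃ (K : Set (List Bool)) (S : Set Oracle), K.Finite ∧ Loc K S ∧
      {A | ∀ n, A ∈ Corr lev M N p (r n) n} ⊆ S ∧ prob S ≤ (26 / 32) ^ j := by
    intro j
    induction j with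
    | zero =>
      refine ⟨∅, Set.univ, Set.finite_empty, fun _ _ _ => Iff.rfl, Set.subset_univ _, ?_⟩
      rw [Pool.Agent.H628R3.RO.prob_univ']
      simp
    | succ j ih =>
      obtain ⟨K, S, hK, hS, h1, h2⟩ := ih
      obtain ⟨b, hb⟩ := (hK.image List.length).bddAbove
      obtain ⟨C, hC⟩ := exists_nat_gt (1 / ((1 / 32 : ℝ) * (26 / 32) ^ j))
      have hev := (poly_lt (8 * ((kp + 1) * Pp + Rq))).and
        (poly_lt ((C : ℕ) * (kp * ((kp + 1) * Pp + Pp * (Pp + 1)))))
      obtain ⟨n, ⟨h8, h9⟩, hn⟩ := (hev.and (Filter.eventually_ge_atTop (b + n₀ + 1))).exists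
      simp only [Polynomial.eval_add, Polynomial.eval_mul, Polynomial.eval_ofNat,
        Polynomial.eval_natCast, Polynomial.eval_one] at h8 h9
      have hloc := loc_Corr (N := N) (p := p) (hP n) (fun A => by
        obtain ⟨D, _, h4, h5⟩ := hR n A
        exact ⟨D, h4, h5⟩)
      have hlocG := loc_Gd (n := th p n) (hP n)
      have hth : n ≤ th p n := Nat.le_add_right _ _
      have hrn := hr n
      have h80 : 8 * ((r n + 1) * Pp.eval n + Rq.eval n) ≤ 2 ^ n := by
        refine le_trans ?_ h8.le
        gcongr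
      have hstep := plant_step (c := 2 * th p n) (m := n)
        (t0 := (r n + 1) * Pp.eval n + Rq.eval n)
        (by omega) h80 hK hS (measurableSet_of_loc (finite_length_le _) hloc)
        (measurableSet_of_loc (finite_length_le _) hlocG) (fun i w hw => by
          have h3 := hb (Set.mem_image_of_mem List.length hw)
          rw [length_pos] at h3
          omega)
        (fun B hB1 hB2 hB3 => few_changes (by omega) (hlev n (by omega)) (hP n)
          (fun A => by
            obtain ⟨D, h4, _, h5⟩ := hR n A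
            exact ⟨D, h4, h5⟩) hB1 hB2 hB3)
      have hG := prob_Gd (n := th p n) (hlev n (by omega)) (hP n)
      refine ⟨K ∪ {y | y.length ≤ (4 * Pp.eval n + 3 + ell (Pp.eval n)) + Rq.eval n +
        (2 * th p n + 2 * n + 2)}, S ∩ Corr lev M N p (r n) n, hK.union (finite_length_le _),
        ?_, fun A hA => ⟨h1 hA, hA n⟩, ?_⟩
      · intro A A' hA
        exact and_congr (hS A A' fun x hx => hA x (Or.inl hx))
          (hloc A A' fun x hx => hA x (Or.inr hx))
      · refine hstep.trans ?_
        have h3 : (C : ℝ) * (r n * ((r n + 1) * Pp.eval n + Pp.eval n * (Pp.eval n + 1))) <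
            2 ^ n := by
          have h4 : C * (r n * ((r n + 1) * Pp.eval n + Pp.eval n * (Pp.eval n + 1))) < 2 ^ n := by
            refine lt_of_le_of_lt ?_ h9
            gcongr
            exact (Nat.cast_id C).ge
          exact_mod_cast h4
        have h4 : (0 : ℝ) < (1 / 32 : ℝ) * (26 / 32) ^ j := by positivity
        have h5 : (1 : ℝ) < C * ((1 / 32 : ℝ) * (26 / 32) ^ j) := by
          rw [div_lt_iff₀ h4] at hC
          linarith
        have h6 : (r n : ℝ) * ((1 / 2) ^ th p n *
            ((r n + 1) * Pp.eval n + Pp.eval n * (Pp.eval n + 1) : ℕ)) ≤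
            (1 / 32 : ℝ) * (26 / 32) ^ j := by
          push_cast
          set X : ℝ := (r n : ℝ) * ((r n + 1) * Pp.eval n + Pp.eval n * (Pp.eval n + 1)) with hX
          have h7 : (0 : ℝ) ≤ X := by positivity
          have h10 : (r n : ℝ) * ((1 / 2) ^ th p n * ((r n + 1) * Pp.eval n + Pp.eval n *
              (Pp.eval n + 1))) ≤ X * (1 / 2) ^ n := by
            have h15 : (1 / 2 : ℝ) ^ th p n ≤ (1 / 2) ^ n :=
              pow_le_pow_of_le_one (by norm_num) (by norm_num) hth
            calc (r n : ℝ) * ((1 / 2) ^ th p n * ((r n + 1) * Pp.eval n + Pp.eval n *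
                (Pp.eval n + 1))) = X * (1 / 2) ^ th p n := by
                  rw [hX]
                  ring
              _ ≤ X * (1 / 2) ^ n := mul_le_mul_of_nonneg_left h15 h7
          refine h10.trans ?_
          have h11 : (2 : ℝ) ^ n * (1 / 2) ^ n = 1 := by
            rw [← mul_pow]
            norm_num
          have h12 : (0 : ℝ) < (1 / 2) ^ n := by positivity
          have h13 : (C : ℝ) * (X * (1 / 2) ^ n) < 1 := by
            calc (C : ℝ) * (X * (1 / 2) ^ n) = (C * X) * (1 / 2) ^ n := by ring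
              _ < 2 ^ n * (1 / 2) ^ n := mul_lt_mul_of_pos_right h3 h12
              _ = 1 := h11
          have h14 : (0 : ℝ) < C := by
            by_contra hcon
            push Not at hcon
            nlinarith
          by_contra hcon
          push Not at hcon
          have := mul_lt_mul_of_pos_left hcon h14
          linarith
        have h7 : prob (Gd lev M (ones n) (th p n) (r n))ᶜ ≤ (1 / 32 : ℝ) * (26 / 32) ^ j :=
          hG.trans h6
        rw [pow_succ]
        linarith
  have h1 : prob {A | ∀ n, A ∈ Corr lev M N p (r n) n} = 0 := by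
    refine le_antisymm ?_ (prob_nonneg _)
    refine ge_of_tendsto' (x := Filter.atTop) (tendsto_pow_atTop_nhds_zero_of_lt_one
      (r := (26 / 32 : ℝ)) (by norm_num) (by norm_num)) fun j => ?_
    obtain ⟨K, S, _, _, h2, h3⟩ := key j
    exact (prob_mono h2).trans h3
  unfold prob at h1
  rwa [measureReal_eq_zero_iff] at h1

end Pool.Agent.L0h33.TT
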