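import Pool.Agent.L0h33.TT.Key
import Pool.Agent.H628R3.RO.G1
import Pool.Agent.H620R2.GaugeR.R1

/-!
# Polynomial time functions for the set with chains of keys
-/

set_option autoImplicit false

namespace Pool.Agent.L0h33.TT

open Pool.Agent.NPC Pool.Agent.H628R3.RO
open Pool.Agent.H620R2.Gauge.R1 (poly_take)

attribute [local irreducible] unpair

section

variable {α γ : Type} [TEnc α] [TEnc γ]

theorem u_min {n : α → ℕ} (hn : UPoly n) : UPoly (fun p : α × ℕ => min p.2 (n p.1)) :=
  UPoly.of_le (Poly.min (Poly.snd Poly.id) (hn.toPoly.comp (Poly.fst Poly.id)))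
    (hn.comp (Poly.fst Poly.id)) fun _ => min_le_right _ _

theorem p_rangeMap {n : α → ℕ} {F : α → ℕ → γ} (hn : UPoly n)
    (hF : Poly (fun p : α × ℕ => F p.1 (min p.2 (n p.1)))) :
    Poly (fun a => (List.range (n a)).map (F a)) := by
  refine (NPC.Poly.map (F := fun a i => F a (min i (n a))) hn.range hF).congr fun a => ?_
  refine List.map_congr_left fun i hi => ?_
  rw [min_eq_left (List.mem_range.1 hi).le]

theorem p_rangeFlat {n : α → ℕ} {F : α → ℕ → List γ} (hn : UPoly n)
    (hF : Poly (fun p : α × ℕ => F p.1 (min p.2 (n p.1)))) :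
    Poly (fun a => (List.range (n a)).flatMap (F a)) := by
  refine (Poly.flatten (p_rangeMap hn hF)).congr fun a => ?_
  rw [List.flatMap_def]

theorem p_rangeFilter {n : α → ℕ} {F : α → ℕ → Bool} (hn : UPoly n)
    (hF : Poly (fun p : α × ℕ => F p.1 (min p.2 (n p.1)))) :
    Poly (fun a => (List.range (n a)).filter (F a)) := by
  refine (Poly.filter (p := fun a i => F a (min i (n a))) hn.range hF).congr fun a => ?_
  refine List.filter_congr fun i hi => ?_
  rw [min_eq_left (List.mem_range.1 hi).le]

theorem p_rangeAll {n : α → ℕ} {F : α → ℕ → Bool} (hn : UPoly n)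
    (hF : Poly (fun p : α × ℕ => F p.1 (min p.2 (n p.1)))) :
    Poly (fun a => (List.range (n a)).all (F a)) := by
  refine (Poly.all (p := fun _ (b : Bool) => b) (p_rangeMap hn hF) (Poly.snd Poly.id)).congr
    fun a => ?_
  rw [List.all_map]
  rfl

theorem u_tg {n : α → ℕ} (hn : UPoly n) : UPoly (fun a => tg (n a)) := by
  have h := hn.eval (8 * (Polynomial.X + 1) ^ 2)
  have e : (fun a => (8 * (Polynomial.X + 1) ^ 2 : Polynomial ℕ).eval (n a)) =
      fun a => tg (n a) := by
    funext a
    simp [tg]
  rwa [e] at h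

theorem u_ell {n : α → ℕ} (hn : UPoly n) : UPoly (fun a => ell (n a)) := (u_tg hn).add hn

theorem u_sub {n m : α → ℕ} (hn : UPoly n) (hm : UPoly m) : UPoly (fun a => n a - m a) :=
  UPoly.of_le (Poly.sub hn.toPoly hm.toPoly) hn fun _ => Nat.sub_le _ _

theorem p_tgs {m i : α → ℕ} (hm : UPoly m) (hi : UPoly i) : Poly (fun a => tgs (m a) (i a)) :=
  Poly.append (p_replicate hi true) (p_replicate (u_sub (u_tg hm) hi) false)

end

/-- Parts of equal lengths. -/
theorem chunk {β γ : Type} {m : ℕ} (f : β → List γ) : ∀ (l : List β), (∀ a ∈ l, (f a).length = m) →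
    ∀ (i : ℕ) (hi : i < l.length), ((l.flatMap f).drop (i * m)).take m = f l[i]
  | [], _, i, hi => by simp at hi
  | a :: l, h, 0, _ => by
    rw [zero_mul, List.drop_zero, List.flatMap_cons]
    exact List.take_left' (h a (by simp))
  | a :: l, h, i + 1, hi => by
    have h1 : (f a).length = m := h a (by simp)
    rw [List.flatMap_cons, add_mul, one_mul, add_comm, ← List.drop_drop,
      List.drop_left' h1]
    exact chunk f l (fun b hb => h b (List.mem_cons_of_mem _ hb)) i (by simpa using hi)

theorem chunk_range {γ : Type} {m n : ℕ} (f : ℕ → List γ) (h : ∀ i < n, (f i).length = m)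
    {i : ℕ} (hi : i < n) : (((List.range n).flatMap f).drop (i * m)).take m = f i := by
  have := chunk (m := m) f (List.range n) (fun a ha => h a (List.mem_range.1 ha)) i (by simpa)
  simpa using this

theorem length_flat {β γ : Type} {m : ℕ} (f : β → List γ) : ∀ (l : List β),
    (∀ a ∈ l, (f a).length = m) → (l.flatMap f).length = l.length * m
  | [], _ => by simp
  | a :: l, h => by
    rw [List.flatMap_cons, List.length_append, h a (by simp),
      length_flat f l (fun b hb => h b (List.mem_cons_of_mem _ hb)), List.length_cons]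
    ring

theorem drop_flat {γ : Type} {m : ℕ} (f : ℕ → List γ) (h : ∀ i, (f i).length = m) (j n : ℕ)
    (hj : j ≤ n) : ((List.range n).flatMap f).drop (j * m) =
      ((List.range n).drop j).flatMap f := by
  have h1 : (List.range n) = (List.range n).take j ++ (List.range n).drop j :=
    (List.take_append_drop _ _).symm
  conv_lhs => rw [h1, List.flatMap_append]
  refine List.drop_left' ?_
  rw [length_flat f _ (fun a _ => h a), List.length_take, List.length_range, min_eq_left hj]

/-- The candidate number `i` for the next label. -/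
def cd (m : ℕ) (v b : List Bool) (i : ℕ) : List Bool := tgs m i ++ ((b.drop (i * m)).take m ++ v)

/-- The questions about the candidates. -/
def qk (m : ℕ) (v b : List Bool) : List (List Bool) :=
  (List.range (tg m)).flatMap (fun i => asks m (2 * m + 1) (cd m v b i))

/-- The next label. -/
def nx (m : ℕ) (v b a : List Bool) : List Bool :=
  ((((List.range (tg m)).filter (fun i => ((a.drop (i * m)).take m).all id)).map
    (cd m v b)).head?).getD v

/-- A query for a bit of a key. -/
def qry (m : ℕ) (v t : List Bool) (j : ℕ) : List Bool :=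
  false :: pairBits (List.replicate m true) (pairBits v (pairBits t (List.replicate j true)))

/-- The queries for the next keys. -/
def ql (m : ℕ) (v : List Bool) : List (List Bool) :=
  (List.range (tg m)).flatMap (fun i => (List.range m).map (fun j => qry m v (tgs m i) j))

/-- The last query. -/
def fq (m : ℕ) (v y : List Bool) : List Bool :=
  true :: pairBits (List.replicate m true) (pairBits v y)

section

variable {α : Type} [TEnc α]

theorem p_cd {m : α → ℕ} {v b : α → List Bool} {i : α → ℕ} (hm : UPoly m) (hv : Poly v)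
    (hb : Poly b) (hi : UPoly i) : Poly (fun a => cd (m a) (v a) (b a) (i a)) :=
  Poly.append (p_tgs hm hi) (Poly.append (poly_take (p_drop hb (hi.mul hm)) hm) hv)

theorem p_qk {m : α → ℕ} {v b : α → List Bool} (hm : UPoly m) (hv : Poly v) (hb : Poly b) :
    Poly (fun a => qk (m a) (v a) (b a)) := by
  have h1 : Poly (fun p : α × ℕ => p.1) := Poly.fst Poly.id
  refine p_rangeFlat (F := fun a i => asks (m a) (2 * m a + 1) (cd (m a) (v a) (b a) i)) (u_tg hm) ?_
  exact p_asks (hm.comp h1) ((((UPoly.const 2).mul hm).add (UPoly.const 1)).comp h1)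
    (p_cd (hm.comp h1) (hv.comp h1) (hb.comp h1) (u_min (u_tg hm)))

theorem p_nx {m : α → ℕ} {v b c : α → List Bool} (hm : UPoly m) (hv : Poly v) (hb : Poly b)
    (hc : Poly c) : Poly (fun a => nx (m a) (v a) (b a) (c a)) := by
  have h1 : Poly (fun p : α × ℕ => p.1) := Poly.fst Poly.id
  have hf : Poly (fun a => (List.range (tg (m a))).filter
      (fun i => (((c a).drop (i * m a)).take (m a)).all id)) := by
    refine p_rangeFilter (F := fun a i => (((c a).drop (i * m a)).take (m a)).all id) (u_tg hm) ?_
    exact p_all_id (poly_take (p_drop (hc.comp h1) ((u_min (u_tg hm)).mul (hm.comp h1)))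
      (hm.comp h1))
  have hg : Poly (fun a => ((List.range (tg (m a))).filter
      (fun i => (((c a).drop (i * m a)).take (m a)).all id)).map (cd (m a) (v a) (b a))) := by
    refine (NPC.Poly.map (F := fun a i => cd (m a) (v a) (b a) (min i (tg (m a)))) hf
      (p_cd (hm.comp h1) (hv.comp h1) (hb.comp h1) (u_min (u_tg hm)))).congr fun a => ?_
    refine List.map_congr_left fun i hi => ?_
    rw [min_eq_left (List.mem_range.1 (List.mem_filter.1 hi).1).le]
  exact Poly.optGetD (Poly.head? hg) hv

theorem p_qry {m : α → ℕ} {v t : α → List Bool} {j : α → ℕ} (hm : UPoly m) (hv : Poly v)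
    (ht : Poly t) (hj : UPoly j) : Poly (fun a => qry (m a) (v a) (t a) (j a)) :=
  Poly.cons (NPC.Poly.const false) (H622R2.poly_pairBits (p_replicate hm true)
    (H622R2.poly_pairBits hv (H622R2.poly_pairBits ht (p_replicate hj true))))

theorem p_ql {m : α → ℕ} {v : α → List Bool} (hm : UPoly m) (hv : Poly v) :
    Poly (fun a => ql (m a) (v a)) := by
  have h1 : Poly (fun p : α × ℕ => p.1) := Poly.fst Poly.id
  refine p_rangeFlat (F := fun a i => (List.range (m a)).map
    (fun j => qry (m a) (v a) (tgs (m a) i) j)) (u_tg hm) ?_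
  have h2 : Poly (fun p : (α × ℕ) × ℕ => p.1) := Poly.fst Poly.id
  refine p_rangeMap (α := α × ℕ) (n := fun p => m p.1)
    (F := fun p j => qry (m p.1) (v p.1) (tgs (m p.1) (min p.2 (tg (m p.1)))) j) (hm.comp h1) ?_
  exact p_qry ((hm.comp h1).comp h2) ((hv.comp h1).comp h2)
    (p_tgs ((hm.comp h1).comp h2) ((u_min (u_tg hm)).comp h2)) (u_min (hm.comp h1))

theorem p_fq {m : α → ℕ} {v y : α → List Bool} (hm : UPoly m) (hv : Poly v) (hy : Poly y) :
    Poly (fun a => fq (m a) (v a) (y a)) :=
  Poly.cons (NPC.Poly.const true) (H622R2.poly_pairBits (p_replicate hm true)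
    (H622R2.poly_pairBits hv hy))

theorem p_encL {l : α → List (List Bool)} (hl : Poly l) : Poly (fun a => encL (l a)) := by
  unfold encL
  refine Poly.flatMap (F := fun _ u => u.flatMap (fun b => [true, b]) ++ [false]) hl ?_
  refine Poly.append ?_ (NPC.Poly.const _)
  exact Poly.flatMap (F := fun _ b => [true, b]) (Poly.snd Poly.id)
    (Poly.cons (NPC.Poly.const _) (Poly.cons (Poly.snd Poly.id) (NPC.Poly.const _)))

theorem u_idx {q : α → List Bool} (hq : Poly q) : UPoly (fun a => idx (q a)) :=
  UPoly.length (Poly.fst (poly_unpair.comp (Poly.tail hq)))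

theorem p_lab {q : α → List Bool} (hq : Poly q) : Poly (fun a => lab (q a)) :=
  Poly.fst (poly_unpair.comp (Poly.snd (poly_unpair.comp (Poly.tail hq))))

theorem p_arg {q : α → List Bool} (hq : Poly q) : Poly (fun a => arg (q a)) :=
  Poly.snd (poly_unpair.comp (Poly.snd (poly_unpair.comp (Poly.tail hq))))

end

theorem idx_qry (m : ℕ) (v t : List Bool) (j : ℕ) : idx (qry m v t j) = m ∧
    lab (qry m v t j) = v ∧ arg (qry m v t j) = pairBits t (List.replicate j true) := by
  unfold idx lab arg qry
  simp [unpair_pairBits]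

theorem idx_fq (m : ℕ) (v y : List Bool) : idx (fq m v y) = m ∧
    lab (fq m v y) = v ∧ arg (fq m v y) = y := by
  unfold idx lab arg fq
  simp [unpair_pairBits]

end Pool.Agent.L0h33.TT
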