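import Pool.Agent.L0h33.TT.Set

/-!
# The run of a reduction with rounds
-/

set_option autoImplicit false

namespace Pool.Agent.L0h33.TT

open Pool.Agent.NPC Pool.Agent.H628R3.RO

attribute [local irreducible] unpair

theorem encL_cons (u : List Bool) (l : List (List Bool)) : encL (u :: l) = pairBits u (encL l) := by
  unfold encL pairBits
  simp

theorem encL_nil : encL [] = [] := rfl

theorem encL_injective : Function.Injective encL := by
  intro l
  induction l with
  | nil =>
    intro l' h
    cases l' with
    | nil => rfl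
    | cons u l' =>
      rw [encL_cons, encL_nil] at h
      have := congrArg List.length h
      rw [H628R3.RO.length_pairBits, List.length_nil] at this
      omega
  | cons u l ih =>
    intro l' h
    cases l' with
    | nil =>
      rw [encL_cons, encL_nil] at h
      have := congrArg List.length h
      rw [H628R3.RO.length_pairBits] at this
      simp at this
    | cons u' l' =>
      rw [encL_cons, encL_cons] at h
      have h1 := congrArg unpair h
      rw [unpair_pairBits, unpair_pairBits] at h1
      obtain ⟨h2, h3⟩ := Prod.mk.inj h1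
      rw [h2, ih h3]

theorem encL_length (l : List (List Bool)) : l.length ≤ (encL l).length ∧
    ∀ u ∈ l, u.length ≤ (encL l).length := by
  induction l with
  | nil => simp [encL_nil]
  | cons u l ih =>
    rw [encL_cons, H628R3.RO.length_pairBits]
    refine ⟨by rw [List.length_cons]; omega, fun v hv => ?_⟩
    rcases List.mem_cons.1 hv with rfl | hv
    · omega
    · have := ih.2 v hv
      omega

open Classical in
/-- Decoding a list of strings. -/
noncomputable def decL (s : List Bool) : List (List Bool) :=
  if h : ∃ l, encL l = s then h.choose else []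

theorem decL_encL (l : List (List Bool)) : decL (encL l) = l := by
  unfold decL
  have h : ∃ l', encL l' = encL l := ⟨l, rfl⟩
  rw [dif_pos h]
  exact encL_injective h.choose_spec

theorem decL_length (s : List Bool) : (decL s).length ≤ s.length ∧
    ∀ u ∈ decL s, u.length ≤ s.length := by
  unfold decL
  split_ifs with h
  · have := encL_length h.choose
    rw [h.choose_spec] at this
    exact this
  · simp

/-- The output of an algorithm. -/
def outA (M : Alg) (A : Oracle) (u : List Bool) : List Bool := (M.out A u).getD []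

theorem outA_bound (M : Alg) : ∃ R : Polynomial ℕ, ∀ (A : Oracle) (u : List Bool),
    (outA M A u).length ≤ R.eval u.length ∧ ∃ D : Finset (List Bool),
      D.card ≤ R.eval u.length ∧ (∀ q ∈ D, q.length ≤ R.eval u.length) ∧
      ∀ A' : Oracle, (∀ q ∈ D, A' q = A q) → outA M A' u = outA M A u := by
  obtain ⟨b, hb⟩ := M.out_length
  obtain ⟨c, hc⟩ := M.out_local
  refine ⟨b + M.p + c, fun A u => ?_⟩
  simp only [Polynomial.eval_add]
  refine ⟨?_, ?_⟩
  · unfold outA
    rcases h : M.out A u with _ | z
    · simp
    · have := hb A u z h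
      simp only [Option.getD_some]
      omega
  · obtain ⟨D, h1, h2, h3⟩ := hc A u
    refine ⟨D, by omega, fun q hq => ?_, fun A' hA' => ?_⟩
    · have := h2 q hq
      omega
    · unfold outA
      rw [h3 A' hA']

/-- The lists of queries. -/
noncomputable def FF (M : Alg × Polynomial ℕ) (A : Oracle) (u : List Bool) : List (List Bool) :=
  decL ((outA M.1 A u).take (M.2.eval (unpair u).1.length))

/-- The history. -/
noncomputable def hs (lev : ℕ → ℕ) (M : Alg × Polynomial ℕ) (x : List Bool) (A : Oracle) (i : ℕ) :
    List Bool := hist (CC lev A) (FF M A) x i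

/-- The list of the queries of a round. -/
noncomputable def ls (lev : ℕ → ℕ) (M : Alg × Polynomial ℕ) (x : List Bool) (A : Oracle) (i : ℕ) :
    List (List Bool) := FF M A (pairBits x (hs lev M x A i))

variable {lev : ℕ → ℕ} {M : Alg × Polynomial ℕ} {x : List Bool}

theorem hs_zero (A : Oracle) : hs lev M x A 0 = [] := rfl

open Classical in
theorem hs_succ (A : Oracle) (i : ℕ) : hs lev M x A (i + 1) =
    hs lev M x A i ++ (ls lev M x A i).map (fun q => decide (q ∈ CC lev A)) := rfl

/-- The bounds for the run, up to round `k`. -/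
def Bnd (lev : ℕ → ℕ) (M : Alg × Polynomial ℕ) (k P : ℕ) (x : List Bool) (A : Oracle) : Prop :=
  ∀ i ≤ k, (hs lev M x A i).length ≤ P ∧ (ls lev M x A i).length ≤ P ∧
    (∀ q ∈ ls lev M x A i, q.length ≤ P) ∧ ∃ D : Finset (List Bool), D.card ≤ P ∧
      (∀ q ∈ D, q.length ≤ P) ∧ ∀ A' : Oracle, (∀ q ∈ D, A' q = A q) →
        outA M.1 A' (pairBits x (hs lev M x A i)) = outA M.1 A (pairBits x (hs lev M x A i))

theorem ls_length (A : Oracle) (i : ℕ) : (ls lev M x A i).length ≤ M.2.eval x.length ∧
    ∀ q ∈ ls lev M x A i, q.length ≤ M.2.eval x.length := by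
  have h1 := decL_length ((outA M.1 A (pairBits x (hs lev M x A i))).take
    (M.2.eval (unpair (pairBits x (hs lev M x A i))).1.length))
  have h2 : ((outA M.1 A (pairBits x (hs lev M x A i))).take
      (M.2.eval (unpair (pairBits x (hs lev M x A i))).1.length)).length ≤ M.2.eval x.length := by
    rw [unpair_pairBits, List.length_take]
    exact min_le_left _ _
  exact ⟨h1.1.trans h2, fun q hq => (h1.2 q hq).trans h2⟩

theorem hs_length (A : Oracle) (i : ℕ) : (hs lev M x A i).length ≤ i * M.2.eval x.length := by
  induction i with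
  | zero => simp [hs_zero]
  | succ i ih =>
    rw [hs_succ, List.length_append, List.length_map, add_mul, one_mul]
    exact add_le_add ih (ls_length A i).1

theorem run_bound (lev : ℕ → ℕ) (M : Alg × Polynomial ℕ) (kp : Polynomial ℕ) :
    ∃ P : Polynomial ℕ, ∀ (x : List Bool) (A : Oracle) (k : ℕ), k ≤ kp.eval x.length →
      Bnd lev M k (P.eval x.length) x A := by
  obtain ⟨R, hR⟩ := outA_bound M.1
  refine ⟨kp * M.2 + M.2 + R.comp (2 * Polynomial.X + 1 + kp * M.2), fun x A k hk i hi => ?_⟩
  simp only [Polynomial.eval_comp, Polynomial.eval_add, Polynomial.eval_mul,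
    Polynomial.eval_ofNat, Polynomial.eval_X, Polynomial.eval_one]
  obtain ⟨h1, h2⟩ := ls_length (lev := lev) (M := M) (x := x) A i
  have h3 := hs_length (lev := lev) (M := M) (x := x) A i
  have h4 : i * M.2.eval x.length ≤ kp.eval x.length * M.2.eval x.length :=
    Nat.mul_le_mul_right _ (hi.trans hk)
  obtain ⟨_, D, h5, h6, h7⟩ := hR A (pairBits x (hs lev M x A i))
  have h8 : R.eval (pairBits x (hs lev M x A i)).length ≤
      R.eval (2 * x.length + 1 + kp.eval x.length * M.2.eval x.length) := by
    refine eval_mono _ ?_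
    rw [H628R3.RO.length_pairBits]
    omega
  refine ⟨by omega, by omega, fun q hq => ?_, D, by omega, fun q hq => ?_, h7⟩
  · have := h2 q hq
    omega
  · have := h6 q hq
    omega

/-- If nothing which is asked changes then the run does not change. -/
theorem stable {A A' : Oracle} {r : ℕ}
    (hD : ∀ i ≤ r, outA M.1 A' (pairBits x (hs lev M x A i)) =
      outA M.1 A (pairBits x (hs lev M x A i)))
    (hC : ∀ i < r, ls lev M x A' i = ls lev M x A i → ∀ q ∈ ls lev M x A' i,
      (q ∈ CC lev A' ↔ q ∈ CC lev A)) :
    ∀ i ≤ r, hs lev M x A' i = hs lev M x A i ∧ ls lev M x A' i = ls lev M x A i := by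
  intro i
  induction i with
  | zero =>
    intro _
    refine ⟨rfl, ?_⟩
    unfold ls FF
    rw [hs_zero, ← hs_zero (lev := lev) (M := M) (x := x) A, hD 0 (by omega)]
  | succ i ih =>
    intro hi
    obtain ⟨h1, h2⟩ := ih (by omega)
    have h3 : hs lev M x A' (i + 1) = hs lev M x A (i + 1) := by
      rw [hs_succ, hs_succ, h1, h2]
      congr 1
      refine List.map_congr_left fun q hq => ?_
      have := hC i (by omega) h2 q (h2 ▸ hq)
      exact decide_eq_decide.2 this
    refine ⟨h3, ?_⟩
    unfold ls FF
    rw [h3, hD (i + 1) hi]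

/-- The run depends on short strings only. -/
theorem run_loc {k P : ℕ} (hP : ∀ A, Bnd lev M k P x A) {A A' : Oracle}
    (h : ∀ y : List Bool, y.length ≤ 4 * P + 3 + ell P → A y = A' y) :
    ∀ i ≤ k, hs lev M x A' i = hs lev M x A i ∧ ls lev M x A' i = ls lev M x A i := by
  refine stable (fun i hi => ?_) fun i hi he q hq => ?_
  · obtain ⟨_, _, _, D, _, h5, h6⟩ := hP A i hi
    exact h6 A' fun q hq => (h q (by have := h5 q hq; omega)).symm
  · obtain ⟨_, _, h3, _⟩ := hP A' i hi.le
    have h4 := bq_le (h3 q hq)
    exact (CC_loc fun y hy => h y (hy.trans h4)).symm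

end Pool.Agent.L0h33.TT
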