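import Pool.Agent.L0h33.TT.Defs
import Pool.Agent.H673R2.OneTT.Kset
import Pool.Agent.H628R3.RO.M2
import Pool.Agent.H628R3.RO.D1

/-!
# The set with chains of keys
-/

set_option autoImplicit false

namespace Pool.Agent.L0h33.TT

open Pool.Agent.NPC Pool.Agent.H628R3.RO
open Pool.Agent.H673R2.OneTT (KA uA)

attribute [local irreducible] unpair

/-- The number of tags. -/
def tg (m : ℕ) : ℕ := 8 * (m + 1) ^ 2

/-- The length of a tag and a key. -/
def ell (m : ℕ) : ℕ := tg m + m

/-- The label `v` consists of `s` tags and keys, each of which is valid for the rest. -/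
def Val (A : Oracle) (m s : ℕ) (v : List Bool) : Prop :=
  v.length = s * ell m ∧ ∀ i < s, Hit m (2 * m + 1, v.drop (i * ell m)) A

/-- The index of a query. -/
def idx (q : List Bool) : ℕ := (unpair q.tail).1.length

/-- The label of a query. -/
def lab (q : List Bool) : List Bool := (unpair (unpair q.tail).2).1

/-- The argument of a query. -/
def arg (q : List Bool) : List Bool := (unpair (unpair q.tail).2).2

/-- The bound for the length of the strings given to the oracle by the universal algorithm. -/
noncomputable def qb : Polynomial ℕ := (uA.out_local).choose.comp (3 * Polynomial.X + 1)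

/-- The set. -/
def CC (lev : ℕ → ℕ) (A : Oracle) : Set (List Bool) :=
  {q | (q.head? = some false ∧ (unpair (arg q)).1.length = tg (idx q) ∧ ∃ z : List Bool,
      z.length = idx q ∧ z.getD (unpair (arg q)).2.length false = true ∧
      Hit (idx q) (2 * idx q + 1, (unpair (arg q)).1 ++ (z ++ lab q)) A) ∨
    (q.head? = some true ∧ Val A (idx q) (lev (idx q)) (lab q) ∧
      qb.eval (arg q).length ≤ idx q ∧ arg q ∈ KA A)}

/-- The tally set. -/
def LT (p : Polynomial ℕ) (A : Oracle) : Set (List Bool) :=
  {x | x = List.replicate x.length true ∧ ∃ w : List Bool, w.length = x.length ∧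
    Hit x.length (2 * (x.length + p.eval x.length), w) A}

theorem ustep_len (s : List Bool × List Bool × Bool) :
    (ustep s).1.length + (ustep s).2.1.length ≤ s.1.length + s.2.1.length := by
  obtain ⟨a, l, b⟩ := s
  unfold ustep
  cases b with
  | true => simp
  | false =>
    match l with
    | [] => simp
    | true :: [] => simp
    | true :: c :: l' => simp; omega
    | false :: l' => simp

unseal unpair in
theorem unpair_len (y : List Bool) : (unpair y).1.length + (unpair y).2.length ≤ y.length := by
  have h : ∀ (k : ℕ) (s : List Bool × List Bool × Bool),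
      (ustep^[k] s).1.length + (ustep^[k] s).2.1.length ≤ s.1.length + s.2.1.length := by
    intro k
    induction k with
    | zero => intro s; simp
    | succ k ih =>
      intro s
      rw [Function.iterate_succ_apply]
      exact (ih _).trans (ustep_len s)
  have h1 := h y.length ([], y, false)
  unfold unpair
  simpa using h1

theorem query_len (q : List Bool) : idx q + (lab q).length + (arg q).length ≤ q.length := by
  have h1 := unpair_len q.tail
  have h2 := unpair_len (unpair q.tail).2
  have h3 : q.tail.length ≤ q.length := by simp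
  unfold idx lab arg
  omega

/-- Membership in the complete set is local. -/
theorem KA_congr {A A' : Oracle} {y : List Bool}
    (h : ∀ x : List Bool, x.length ≤ qb.eval y.length → A' x = A x) : y ∈ KA A' ↔ y ∈ KA A := by
  unfold KA
  simp only [Set.mem_ofPred_eq]
  refine exists_congr fun w => and_congr_right fun hw => ?_
  obtain ⟨Q, _, hQ, hloc⟩ := (uA.out_local).choose_spec A (pairBits y w)
  rw [hloc A' fun q hq => h q ((hQ q hq).trans ?_)]
  unfold qb
  rw [Polynomial.eval_comp]
  refine eval_mono _ ?_
  rw [H628R3.RO.length_pairBits]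
  simp only [Polynomial.eval_add, Polynomial.eval_mul, Polynomial.eval_ofNat, Polynomial.eval_X,
    Polynomial.eval_one]
  omega

theorem Hit.mono {A A' : Oracle} {m : ℕ} {κ : Cand} (h : ∀ x, A x = true → A' x = true)
    (hk : Hit m κ A) : Hit m κ A' := fun i hi => h _ (hk i hi)

theorem Val.mono {A A' : Oracle} {m s : ℕ} {v : List Bool} (h : ∀ x, A x = true → A' x = true)
    (hv : Val A m s v) : Val A' m s v := ⟨hv.1, fun i hi => Hit.mono h (hv.2 i hi)⟩

/-- The rest of a valid label is valid. -/
theorem Val.drop {A : Oracle} {m s : ℕ} {v : List Bool} (hv : Val A m s v) {j : ℕ} (hj : j ≤ s) :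
    Val A m j (v.drop ((s - j) * ell m)) := by
  obtain ⟨h1, h2⟩ := hv
  refine ⟨?_, fun i hi => ?_⟩
  · rw [List.length_drop, h1]
    have : s * ell m = (s - j) * ell m + j * ell m := by
      rw [← add_mul]
      congr 1
      omega
    omega
  · rw [List.drop_drop, ← add_mul]
    exact h2 _ (by omega)

theorem Val.succ_iff {A : Oracle} {m s : ℕ} {u : List Bool} :
    Val A m (s + 1) u ↔ u.length = (s + 1) * ell m ∧ Hit m (2 * m + 1, u) A ∧
      Val A m s (u.drop (ell m)) := by
  constructor
  · rintro ⟨h1, h2⟩
    refine ⟨h1, ?_, ?_, fun i hi => ?_⟩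
    · have := h2 0 (by omega)
      simpa using this
    · rw [List.length_drop, h1]
      rw [add_mul, one_mul]
      omega
    · rw [List.drop_drop]
      have := h2 (i + 1) (by omega)
      rw [add_mul, one_mul, add_comm (i * ell m)] at this
      exact this
  · rintro ⟨h1, h2, h3, h4⟩
    refine ⟨h1, fun i hi => ?_⟩
    rcases i with _ | i
    · simpa using h2
    · have := h4 i (by omega)
      rw [List.drop_drop] at this
      rw [add_mul, one_mul, add_comm (i * ell m)]
      exact this

/-- The membership of a query in the set for two oracles. -/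
theorem CC_congr {lev : ℕ → ℕ} {A A' : Oracle} {q : List Bool}
    (hmono : ∀ x, A x = true → A' x = true)
    (h1 : ∀ t z : List Bool, t.length = tg (idx q) → z.length = idx q →
      (Hit (idx q) (2 * idx q + 1, t ++ (z ++ lab q)) A' ↔
        Hit (idx q) (2 * idx q + 1, t ++ (z ++ lab q)) A))
    (h2 : (¬ Val A' (idx q) (lev (idx q)) (lab q)) ∨
      ((Val A' (idx q) (lev (idx q)) (lab q) ↔ Val A (idx q) (lev (idx q)) (lab q)) ∧
        ∀ x : List Bool, x.length ≤ idx q → A' x = A x)) :
    q ∈ CC lev A' ↔ q ∈ CC lev A := by
  unfold CC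
  simp only [Set.mem_ofPred_eq]
  refine or_congr ?_ ?_
  · refine and_congr_right fun _ => and_congr_right fun ht => ?_
    refine exists_congr fun z => and_congr_right fun hz => and_congr_right fun _ => ?_
    exact h1 _ _ ht hz
  · refine and_congr_right fun _ => ?_
    rcases h2 with h2 | ⟨h2, h3⟩
    · constructor
      · rintro ⟨h, _⟩
        exact absurd h h2
      · rintro ⟨h, _⟩
        exact absurd (h.mono hmono) h2
    · rw [h2]
      refine and_congr_right fun _ => and_congr_right fun h4 => ?_
      exact KA_congr fun x hx => h3 x (hx.trans h4)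

/-- A bound for the length of the strings on which membership of a query depends. -/
def bq (q : List Bool) : ℕ := 3 * idx q + 3 + ell (idx q) + (lab q).length

theorem tg_mono {m m' : ℕ} (h : m ≤ m') : tg m ≤ tg m' := by
  unfold tg
  gcongr

theorem ell_mono {m m' : ℕ} (h : m ≤ m') : ell m ≤ ell m' := by
  have := tg_mono h
  unfold ell
  omega

theorem bq_le {q : List Bool} {P : ℕ} (h : q.length ≤ P) : bq q ≤ 4 * P + 3 + ell P := by
  have h1 := query_len q
  have h2 := ell_mono (show idx q ≤ P by omega)
  unfold bq
  omega

theorem hit_congr {A A' : Oracle} {m : ℕ} {κ : Cand} {B : ℕ}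
    (hB : κ.1 + m + κ.2.length + 2 ≤ B + 1) (h : ∀ x : List Bool, x.length ≤ B → A x = A' x) :
    Hit m κ A ↔ Hit m κ A' := by
  unfold Hit
  refine forall₂_congr fun i hi => ?_
  rw [h _ (by rw [length_pos]; omega)]

theorem val_congr {A A' : Oracle} {m s : ℕ} {v : List Bool} {B : ℕ}
    (hB : 3 * m + 3 + v.length ≤ B + 1) (h : ∀ x : List Bool, x.length ≤ B → A x = A' x) :
    Val A m s v ↔ Val A' m s v := by
  unfold Val
  refine and_congr_right fun _ => forall₂_congr fun i hi => ?_
  refine hit_congr ?_ h
  simp only [List.length_drop]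
  omega

theorem CC_loc {lev : ℕ → ℕ} {A A' : Oracle} {q : List Bool}
    (h : ∀ x : List Bool, x.length ≤ bq q → A x = A' x) : q ∈ CC lev A ↔ q ∈ CC lev A' := by
  unfold CC
  simp only [Set.mem_ofPred_eq]
  refine or_congr ?_ ?_
  · refine and_congr_right fun _ => and_congr_right fun ht => ?_
    refine exists_congr fun z => and_congr_right fun hz => and_congr_right fun _ => ?_
    refine hit_congr ?_ h
    simp only [List.length_append]
    unfold bq ell
    omega
  · refine and_congr_right fun _ => ?_
    refine and_congr (val_congr ?_ h) (and_congr_right fun h4 => ?_)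
    · unfold bq
      omega
    · exact KA_congr fun x hx => h x (hx.trans (h4.trans (by unfold bq; omega)))

end Pool.Agent.L0h33.TT
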