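import Pool.Agent.L0h33.TT.Chain
import Pool.Agent.L0h33.TT.Run

/-!
# Completeness with one round more than the number of keys
-/

set_option autoImplicit false

namespace Pool.Agent.L0h33.TT

open Pool.Agent.NPC Pool.Agent.H628R3.RO
open Pool.Agent.H620R2.Gauge.R1 (poly_take)
open Pool.Agent.H673R2.OneTT (KA hard_KA)

attribute [local irreducible] unpair

/-- The index used for the instance `y`. -/
noncomputable def mm (m₀ : ℕ) (y : List Bool) : ℕ := qb.eval y.length + m₀

/-- The part of the history which belongs to the next round. -/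
noncomputable def nb (m₀ : ℕ) (s : List Bool) : List Bool :=
  (unpair (unpair s).2).2.take (tg (mm m₀ (unpair s).1) * mm m₀ (unpair s).1)

/-- The new state, given the answers to the questions to the oracle. -/
noncomputable def nH (m₀ : ℕ) (s a : List Bool) : List Bool :=
  pairBits (unpair s).1 (pairBits (nx (mm m₀ (unpair s).1) (unpair (unpair s).2).1 (nb m₀ s) a)
    ((unpair (unpair s).2).2.drop (tg (mm m₀ (unpair s).1) * mm m₀ (unpair s).1)))

/-- The questions to the oracle. -/
noncomputable def nQ (m₀ : ℕ) (s : List Bool) : List (List Bool) :=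
  qk (mm m₀ (unpair s).1) (unpair (unpair s).2).1 (nb m₀ s)

/-- The new state: nothing changes if the rest of the history is too short. -/
noncomputable def nG (m₀ : ℕ) (s a : List Bool) : List Bool :=
  if (unpair (unpair s).2).2.length < tg (mm m₀ (unpair s).1) * mm m₀ (unpair s).1 then s
  else nH m₀ s a

/-- One step of the analysis of the history. -/
noncomputable def nst (m₀ : ℕ) (A : Oracle) (s : List Bool) : List Bool :=
  nG m₀ s ((nQ m₀ s).map A)

theorem u_mm {α : Type} [TEnc α] {y : α → List Bool} (hy : Poly y) (m₀ : ℕ) :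
    UPoly (fun a => mm m₀ (y a)) :=
  (UPoly.eval (UPoly.length hy) qb).add (UPoly.const m₀)

section

variable (m₀ : ℕ)

theorem q1 : Poly (fun s : List Bool => (unpair s).1) := Poly.fst poly_unpair

theorem q2 : Poly (fun s : List Bool => (unpair (unpair s).2).1) :=
  Poly.fst (poly_unpair.comp (Poly.snd poly_unpair))

theorem q3 : Poly (fun s : List Bool => (unpair (unpair s).2).2) :=
  Poly.snd (poly_unpair.comp (Poly.snd poly_unpair))

theorem u_mm1 : UPoly (fun s : List Bool => mm m₀ (unpair s).1) := u_mm q1 m₀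

theorem u_L : UPoly (fun s : List Bool => tg (mm m₀ (unpair s).1) * mm m₀ (unpair s).1) :=
  (u_tg (u_mm1 m₀)).mul (u_mm1 m₀)

theorem p_nb : Poly (nb m₀) := poly_take q3 (u_L m₀)

theorem p_nQ : Poly (nQ m₀) := p_qk (u_mm1 m₀) q2 (p_nb m₀)

theorem p_nH : Poly (fun p : List Bool × List Bool => nH m₀ p.1 p.2) := by
  have h1 : Poly (fun p : List Bool × List Bool => p.1) := Poly.fst Poly.id
  have h2 : Poly (fun p : List Bool × List Bool => p.2) := Poly.snd Poly.id
  exact H622R2.poly_pairBits (q1.comp h1) (H622R2.poly_pairBits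
    (p_nx ((u_mm1 m₀).comp h1) (q2.comp h1) ((p_nb m₀).comp h1) h2)
    (p_drop (q3.comp h1) ((u_L m₀).comp h1)))

theorem p_nG : Poly (fun p : List Bool × List Bool => nG m₀ p.1 p.2) := by
  have h1 : Poly (fun p : List Bool × List Bool => p.1) := Poly.fst Poly.id
  exact Poly.ite ((NPC.Poly.decide_lt (Poly.length q3) (u_L m₀).toPoly).comp h1) h1 (p_nH m₀)

theorem isFP_nst (A : Oracle) : IsFP A (nst m₀ A) :=
  IsFP.tt (A := A) (p_nQ m₀) (p_nG m₀)

theorem isFP_iter (A : Oracle) {g : List Bool → List Bool} (hg : IsFP A g) :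
    ∀ i : ℕ, IsFP A (fun u => (nst m₀ A)^[i] (g u))
  | 0 => hg
  | i + 1 => by
    have h := IsFP.comp (isFP_nst m₀ A) (isFP_iter A hg i)
    refine (congrArg (IsFP A) ?_).mp h
    funext u
    rw [Function.iterate_succ_apply']

end

/-- The first state. -/
def st0 (f : List Bool → List Bool) (u : List Bool) : List Bool :=
  pairBits (f (unpair u).1) (pairBits [] (unpair u).2)

theorem isFP_st0 {A : Oracle} {f : List Bool → List Bool} (hf : IsFP A f) : IsFP A (st0 f) :=
  IsFP.pair (IsFP.comp hf (IsFP.of_poly q1)) (IsFP.of_poly (H622R2.poly_pairBits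
    (NPC.Poly.const []) (Poly.snd poly_unpair)))

/-- The queries, given the input and the history `u` and the state `s`. -/
noncomputable def FQ (m₀ k : ℕ) (u s : List Bool) : List (List Bool) :=
  if (unpair u).2.length < k * (tg (mm m₀ (unpair s).1) * mm m₀ (unpair s).1) then
    ql (mm m₀ (unpair s).1) (unpair (unpair s).2).1
  else [fq (mm m₀ (unpair s).1) (unpair (unpair s).2).1 (unpair s).1]

/-- The queries of the reduction. -/
noncomputable def FR (m₀ k : ℕ) (A : Oracle) (f : List Bool → List Bool) (u : List Bool) :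
    List (List Bool) := FQ m₀ k u ((nst m₀ A)^[k] (st0 f u))

theorem isFP_FR (m₀ k : ℕ) (A : Oracle) {f : List Bool → List Bool} (hf : IsFP A f) :
    IsFP A (fun u => encL (FR m₀ k A f u)) := by
  have h1 := IsFP.pair (IsFP.of_poly (A := A) Poly.id) (isFP_iter m₀ A (isFP_st0 hf) k)
  have k1 : Poly (fun s : List Bool => (unpair s).2) := Poly.snd poly_unpair
  have h2 : Poly (fun s : List Bool => encL (FQ m₀ k (unpair s).1 (unpair s).2)) := by
    refine p_encL (Poly.ite ?_ ?_ ?_)
    · exact NPC.Poly.decide_lt (Poly.length (Poly.snd (poly_unpair.comp q1)))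
        ((UPoly.const k).mul ((u_L m₀).comp k1)).toPoly
    · exact p_ql ((u_mm1 m₀).comp k1) (q2.comp k1)
    · exact Poly.cons (p_fq ((u_mm1 m₀).comp k1) (q2.comp k1) (q1.comp k1)) (NPC.Poly.const [])
  have h3 := IsFP.comp (IsFP.of_poly (A := A) h2) h1
  simp only [unpair_pairBits] at h3
  exact h3

/-- The expected history. -/
noncomputable def HH (lev : ℕ → ℕ) (A : Oracle) (m i : ℕ) : List Bool :=
  (List.range i).flatMap (fun j => block lev A m (vs lev A m j))

theorem length_HH (lev : ℕ → ℕ) (A : Oracle) (m i : ℕ) :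
    (HH lev A m i).length = i * (tg m * m) := by
  unfold HH
  rw [length_flat (m := tg m * m) _ _ (fun _ _ => block_length), List.length_range]

theorem iter_HH (lev : ℕ → ℕ) (m₀ : ℕ) (A : Oracle) (f : List Bool → List Bool) (x : List Bool)
    (i : ℕ) : ∀ j ≤ i, (nst m₀ A)^[j] (st0 f (pairBits x (HH lev A (mm m₀ (f x)) i))) =
      pairBits (f x) (pairBits (vs lev A (mm m₀ (f x)) j)
        ((HH lev A (mm m₀ (f x)) i).drop (j * (tg (mm m₀ (f x)) * mm m₀ (f x))))) := by
  intro j
  induction j with
  | zero =>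
    intro _
    unfold st0
    simp [unpair_pairBits, vs]
  | succ j ih =>
    intro hj
    rw [Function.iterate_succ_apply', ih (by omega)]
    set m := mm m₀ (f x) with hm
    have h1 : ((HH lev A m i).drop (j * (tg m * m))).take (tg m * m) =
        block lev A m (vs lev A m j) :=
      chunk_range (fun j => block lev A m (vs lev A m j)) (fun i _ => block_length)
        (show j < i by omega)
    have h0 : ¬ ((HH lev A m i).drop (j * (tg m * m))).length < tg m * m := by
      rw [List.length_drop, length_HH, ← Nat.sub_mul, not_lt]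
      exact Nat.le_mul_of_pos_left _ (by omega)
    unfold nst nQ nG nH nb
    simp only [unpair_pairBits]
    rw [← hm, if_neg h0, h1, List.drop_drop]
    have h2 : vs lev A m (j + 1) = nxt lev A m (vs lev A m j) := by
      unfold vs
      rw [Function.iterate_succ_apply']
    rw [h2, add_mul, one_mul]
    rfl

theorem iter_HH' (lev : ℕ → ℕ) (m₀ : ℕ) (hm₀ : 1 ≤ m₀) (A : Oracle)
    (f : List Bool → List Bool) (x : List Bool) {i k : ℕ} (hi : i ≤ k) :
    (nst m₀ A)^[k] (st0 f (pairBits x (HH lev A (mm m₀ (f x)) i))) =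
      pairBits (f x) (pairBits (vs lev A (mm m₀ (f x)) i) []) := by
  have h1 : ∀ (y v : List Bool) (j : ℕ), (nst m₀ A)^[j] (pairBits y (pairBits v [])) =
      pairBits y (pairBits v []) := by
    intro y v j
    refine Function.iterate_fixed ?_ j
    unfold nst nG
    simp only [unpair_pairBits]
    rw [if_pos]
    rw [List.length_nil]
    have h2 : 0 < mm m₀ y := by unfold mm; omega
    have h3 : 0 < tg (mm m₀ y) := by unfold tg; positivity
    exact Nat.mul_pos h3 h2
  obtain ⟨j, rfl⟩ : ∃ j, k = j + i := ⟨k - i, by omega⟩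
  rw [Function.iterate_add_apply, iter_HH lev m₀ A f x i i le_rfl, List.drop_of_length_le
    (by rw [length_HH]), h1]

/-- The set with `k` keys is complete for reductions with `k + 1` rounds. -/
theorem round_complete (k : ℕ) {A : Oracle} (hA : ∃ m₀, ∀ m ≥ m₀, A ∉ Bad m)
    {B : Set (List Bool)} (hB : IsNP A B) :
    RoundRed A (fun _ => k + 1) B (CC (fun _ => k) A) := by
  classical
  obtain ⟨m₁, hm₁⟩ := hA
  obtain ⟨f, hf, hfB⟩ := hard_KA A B hB
  set m₀ := m₁ + k + 1 with hm₀
  have hG : Poly (fun u : List Bool => [((unpair u).2.reverse.head?).getD false]) :=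
    NPC.Poly.cons (Poly.optGetD (Poly.head? (Poly.reverse (Poly.snd poly_unpair)))
      (NPC.Poly.const _)) (NPC.Poly.const [])
  have hFR := isFP_FR m₀ k A hf
  obtain ⟨b₀, hb₀⟩ := IsFP.length_le hFR
  obtain ⟨b₁, hb₁⟩ := IsFP.length_le hf
  have hLpos : ∀ x, 0 < tg (mm m₀ (f x)) * mm m₀ (f x) := by
    intro x
    have h2 : 0 < mm m₀ (f x) := by unfold mm; omega
    have h3 : 0 < tg (mm m₀ (f x)) := by unfold tg; positivity
    exact Nat.mul_pos h3 h2
  have hF : ∀ x, ∀ i ≤ k, FR m₀ k A f (pairBits x (HH (fun _ => k) A (mm m₀ (f x)) i)) =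
      if i < k then ql (mm m₀ (f x)) (vs (fun _ => k) A (mm m₀ (f x)) i)
      else [fq (mm m₀ (f x)) (vs (fun _ => k) A (mm m₀ (f x)) i) (f x)] := by
    intro x i hi
    unfold FR FQ
    rw [iter_HH' (fun _ => k) m₀ (by omega) A f x hi]
    simp only [unpair_pairBits, length_HH]
    by_cases h : i < k
    · rw [if_pos h, if_pos (Nat.mul_lt_mul_of_pos_right h (hLpos x))]
    · rw [if_neg h, if_neg (not_lt.2 (Nat.mul_le_mul_right _ (by omega)))]
  have hhist : ∀ x, ∀ i ≤ k, hist (CC (fun _ => k) A) (FR m₀ k A f) x i =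
      HH (fun _ => k) A (mm m₀ (f x)) i := by
    intro x i
    induction i with
    | zero => intro _; rfl
    | succ i ih =>
      intro hi
      have h1 : hist (CC (fun _ => k) A) (FR m₀ k A f) x (i + 1) =
          hist (CC (fun _ => k) A) (FR m₀ k A f) x i ++ (FR m₀ k A f (pairBits x
            (hist (CC (fun _ => k) A) (FR m₀ k A f) x i))).map
              (fun q => decide (q ∈ CC (fun _ => k) A)) := rfl
      rw [h1, ih (by omega), hF x i (by omega), if_pos (show i < k by omega)]
      unfold HH
      rw [List.range_succ, List.flatMap_append]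
      simp only [List.flatMap_cons, List.flatMap_nil, List.append_nil]
      rfl
  set Q : Polynomial ℕ := qb.comp b₁ + Polynomial.C m₀ with hQ
  refine ⟨FR m₀ k A f, _, b₀.comp (2 * Polynomial.X + 1 + Polynomial.C k * (8 * (Q + 1) ^ 2 * Q)),
    hFR,
    IsFP.of_poly hG, fun x i hi => ?_, fun x => ?_⟩
  · have hi' : i < k + 1 := hi
    rw [hhist x i (by omega)]
    refine (hb₀ _).trans ?_
    rw [Polynomial.eval_comp]
    refine eval_mono _ ?_
    rw [H628R3.RO.length_pairBits, length_HH]
    have h1 : mm m₀ (f x) ≤ Q.eval x.length := by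
      rw [hQ]
      unfold mm
      simp only [Polynomial.eval_add, Polynomial.eval_comp, Polynomial.eval_C]
      have := eval_mono qb (hb₁ x)
      omega
    have h2 : tg (mm m₀ (f x)) * mm m₀ (f x) ≤ 8 * (Q.eval x.length + 1) ^ 2 * Q.eval x.length := by
      unfold tg
      gcongr
    simp only [Polynomial.eval_add, Polynomial.eval_mul, Polynomial.eval_ofNat,
      Polynomial.eval_X, Polynomial.eval_one, Polynomial.eval_C, Polynomial.eval_pow]
    have h3 : i * (tg (mm m₀ (f x)) * mm m₀ (f x)) ≤
        k * (8 * (Q.eval x.length + 1) ^ 2 * Q.eval x.length) := Nat.mul_le_mul (by omega) h2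
    omega
  · set m := mm m₀ (f x) with hm
    have hmk : k ≤ m := by rw [hm, mm]; omega
    have hbad : A ∉ Bad m := hm₁ m (by rw [hm, mm]; omega)
    have h1 : hist (CC (fun _ => k) A) (FR m₀ k A f) x (k + 1) =
        hist (CC (fun _ => k) A) (FR m₀ k A f) x k ++ (FR m₀ k A f (pairBits x
          (hist (CC (fun _ => k) A) (FR m₀ k A f) x k))).map
            (fun q => decide (q ∈ CC (fun _ => k) A)) := rfl
    have h3 := hF x k le_rfl
    rw [if_neg (lt_irrefl k), ← hm] at h3
    rw [h1, hhist x k le_rfl, ← hm, h3, hfB, unpair_pairBits]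
    simp only [List.map_cons, List.map_nil, List.reverse_append, List.reverse_cons,
      List.reverse_nil, List.nil_append, List.cons_append, List.head?_cons, Option.getD_some,
      List.cons.injEq, and_true, decide_eq_true_eq]
    rw [mem_CC_fq]
    constructor
    · intro h
      exact ⟨(vs_spec hbad k hmk).2, by rw [hm, mm]; omega, h⟩
    · exact fun h => h.2.2

end Pool.Agent.L0h33.TT
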